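import Pool.Agent.Y157.PS.Stm

/-!
# Gauss valuations: basic facts
-/

set_option autoImplicit false
set_option linter.all false

open Polynomial FF Pool.Agent.Y157.PS

namespace Pool.Agent.Y155.PS

section val
variable {K : Type} [Field K] (V : ValuationSubring K)

theorem isU_iff {z : K} : IsU V z ↔ V.valuation z = 1 := by
  constructor
  · rintro ⟨h0, h1, h2⟩
    have a1 := (V.valuation_le_one_iff _).2 h1
    have a2 := (V.valuation_le_one_iff _).2 h2
    rw [map_inv₀] at a2
    refine le_antisymm a1 ?_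
    have h3 : V.valuation z ≠ 0 := (Valuation.ne_zero_iff _).2 h0
    exact (inv_le_one₀ (zero_lt_iff.2 h3)).1 a2
  · intro h
    have h0 : z ≠ 0 := by
      rintro rfl
      rw [map_zero] at h
      exact zero_ne_one h
    refine ⟨h0, (V.valuation_le_one_iff _).1 h.le, (V.valuation_le_one_iff _).1 ?_⟩
    rw [map_inv₀, h, inv_one]

theorem non_iff {z : K} : z ∈ V.nonunits ↔ V.valuation z < 1 := V.mem_nonunits_iff

theorem not_isU_of_non {z : K} (h : z ∈ V.nonunits) : ¬ IsU V z := by
  rw [isU_iff]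
  rw [non_iff] at h
  exact h.ne

theorem isU_or_non {z : K} (h : z ∈ V) : IsU V z ∨ z ∈ V.nonunits := by
  rw [isU_iff, non_iff]
  rcases ((V.valuation_le_one_iff z).2 h).lt_or_eq with h | h
  · exact Or.inr h
  · exact Or.inl h

end val

section gauss
variable {κ M : Type} [Field κ] [Field M] [Algebra κ M] {V : ValuationSubring κ} {x : M}
  {O : ValuationSubring M} (hG : Gauss V x O)
include hG

theorem g_le (c : κ) : O.valuation (algebraMap κ M c) ≤ 1 ↔ V.valuation c ≤ 1 := by
  rw [O.valuation_le_one_iff, V.valuation_le_one_iff]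
  exact hG.1 c

theorem g_eq (c : κ) : O.valuation (algebraMap κ M c) = 1 ↔ V.valuation c = 1 := by
  rw [← isU_iff, ← isU_iff, IsU, IsU, ← map_inv₀, hG.1, hG.1, _root_.map_ne_zero]

theorem g_lt (c : κ) : O.valuation (algebraMap κ M c) < 1 ↔ V.valuation c < 1 := by
  rw [lt_iff_le_and_ne, lt_iff_le_and_ne, g_le hG, Ne, Ne, g_eq hG]

theorem g_non (c : κ) : algebraMap κ M c ∈ O.nonunits ↔ c ∈ V.nonunits := by
  rw [non_iff, non_iff]
  exact g_lt hG c

end gauss

/-- every nonzero polynomial is a constant times a polynomial of content one -/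
theorem poly_scale {κ : Type} [Field κ] (V : ValuationSubring κ) {p : κ[X]} (hp : p ≠ 0) :
    ∃ c : κ, c ≠ 0 ∧ ∃ q : κ[X], p = C c * q ∧ (∀ n, q.coeff n ∈ V) ∧
      ∃ n, IsU V (q.coeff n) := by
  obtain ⟨i, hi, hmax⟩ := Finset.exists_max_image p.support (fun n => V.valuation (p.coeff n))
    (Polynomial.support_nonempty.2 hp)
  have hc : p.coeff i ≠ 0 := mem_support_iff.1 hi
  refine ⟨p.coeff i, hc, C (p.coeff i)⁻¹ * p, ?_, fun n => ?_, i, ?_⟩
  · rw [← mul_assoc, ← C_mul, mul_inv_cancel₀ hc, C_1, one_mul]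
  · rw [coeff_C_mul, ← V.valuation_le_one_iff, map_mul, map_inv₀]
    by_cases hn : n ∈ p.support
    · have h0 : V.valuation (p.coeff i) ≠ 0 := (Valuation.ne_zero_iff _).2 hc
      rw [inv_mul_le_iff₀ (zero_lt_iff.2 h0), mul_one]
      exact hmax n hn
    · rw [notMem_support_iff.1 hn, map_zero, mul_zero]
      exact zero_le'
  · rw [coeff_C_mul, inv_mul_cancel₀ hc]
    exact ⟨one_ne_zero, one_mem _, by rw [inv_one]; exact one_mem _⟩

/-- elements of `R` are quotients of polynomials -/
theorem rat_repr {κ R : Type} [Field κ] [Field R] [Algebra κ R] {x : R} (hx : RatF κ x) (r : R) :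
    ∃ p q : κ[X], q ≠ 0 ∧ r = aeval x p / aeval x q ∧ aeval x q ≠ 0 := by
  have h : r ∈ IntermediateField.adjoin κ {x} := by rw [hx.gen]; trivial
  rw [IntermediateField.mem_adjoin_simple_iff] at h
  obtain ⟨p, q, h⟩ := h
  by_cases hq : q = 0
  · refine ⟨0, 1, one_ne_zero, ?_, ?_⟩
    · rw [h, hq]; simp
    · simp
  · refine ⟨p, q, hq, h, ?_⟩
    have := (transcendental_iff.1 hx.trans) q
    exact fun h0 => hq (this h0)

section cov
variable {κ R M : Type} [Field κ] [Field R] [Field M] [Algebra κ R] [Algebra R M] [Algebra κ M]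
  [IsScalarTower κ R M] {x : R} {V : ValuationSubring κ} {O : ValuationSubring M}

theorem aeval_R (p : κ[X]) : algebraMap R M (aeval x p) = aeval (algebraMap R M x) p := by
  rw [aeval_algebraMap_apply]

/-- the values of the elements of `R` are values of constants; more precisely, a nonzero element
of `R` is a constant times a quotient of two polynomials of content one -/
theorem R_repr (hx : RatF κ x) {r : R} (hr : r ≠ 0) : ∃ c : κ, c ≠ 0 ∧
    ∃ p q : κ[X], (∀ n, p.coeff n ∈ V) ∧ (∃ n, IsU V (p.coeff n)) ∧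
      (∀ n, q.coeff n ∈ V) ∧ (∃ n, IsU V (q.coeff n)) ∧
      r = algebraMap κ R c * (aeval x p / aeval x q) := by
  obtain ⟨p, q, hq, h, hq0⟩ := rat_repr hx r
  have hp : p ≠ 0 := by
    rintro rfl
    rw [map_zero, zero_div] at h
    exact hr h
  obtain ⟨c, hc, p', hp', h1, h2⟩ := poly_scale V hp
  obtain ⟨d, hd, q', hq', h3, h4⟩ := poly_scale V hq
  refine ⟨c / d, div_ne_zero hc hd, p', q', h1, h2, h3, h4, ?_⟩
  rw [h, hp', hq']
  simp only [map_mul, aeval_C, map_div₀]
  rw [mul_div_mul_comm]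

theorem R_val (hx : RatF κ x) (hG : Gauss V (algebraMap R M x) O) {r : R} (hr : r ≠ 0) :
    ∃ c : κ, c ≠ 0 ∧ O.valuation (algebraMap R M r) = O.valuation (algebraMap κ M c) := by
  obtain ⟨c, hc, p, q, h1, h2, h3, h4, h⟩ := R_repr (V := V) hx hr
  refine ⟨c, hc, ?_⟩
  have e1 := (isU_iff O).1 (hG.2 p h1 h2)
  have e2 := (isU_iff O).1 (hG.2 q h3 h4)
  rw [h, map_mul, map_div₀, aeval_R, aeval_R, map_mul, map_div₀, e1, e2, div_one, mul_one,
    ← IsScalarTower.algebraMap_apply]

/-- a power of the value of an algebraic element is a value of the base field -/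
theorem val_pow {A L : Type} [Field A] [Field L] [Algebra A L] (O : ValuationSubring L) {z : L}
    (hz : z ≠ 0) (ha : IsAlgebraic A z) : ∃ m : ℕ, 0 < m ∧ ∃ r : A, r ≠ 0 ∧
      O.valuation z ^ m = O.valuation (algebraMap A L r) := by
  obtain ⟨P, hP, h0⟩ := ha
  obtain ⟨i, hi, hmax⟩ := Finset.exists_max_image P.support
    (fun n => O.valuation (algebraMap A L (P.coeff n) * z ^ n)) (Polynomial.support_nonempty.2 hP)
  have hc : ∀ j ∈ P.support, algebraMap A L (P.coeff j) ≠ 0 := fun j hj =>
    (_root_.map_ne_zero _).2 (mem_support_iff.1 hj)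
  have hne : ∀ j ∈ P.support, algebraMap A L (P.coeff j) * z ^ j ≠ 0 := fun j hj =>
    mul_ne_zero (hc j hj) (pow_ne_zero _ hz)
  have key : ∃ j ∈ P.support, j ≠ i ∧
      O.valuation (algebraMap A L (P.coeff j) * z ^ j) =
      O.valuation (algebraMap A L (P.coeff i) * z ^ i) := by
    by_contra hcon
    push Not at hcon
    have h1 : O.valuation (∑ j ∈ P.support.erase i, algebraMap A L (P.coeff j) * z ^ j) <
        O.valuation (algebraMap A L (P.coeff i) * z ^ i) := by
      apply Valuation.map_sum_lt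
      · exact (Valuation.ne_zero_iff _).2 (hne i hi)
      · intro j hj
        have hj' := Finset.mem_erase.1 hj
        exact lt_of_le_of_ne (hmax j hj'.2) (hcon j hj'.2 hj'.1)
    have h2 : (∑ j ∈ P.support.erase i, algebraMap A L (P.coeff j) * z ^ j) +
        algebraMap A L (P.coeff i) * z ^ i = 0 := by
      rw [Finset.sum_erase_add _ _ hi, ← h0, aeval_eq_sum_range,
        Polynomial.sum_over_range' (p := P) (f := fun n a => a • z ^ n) (by simp) _
          (Nat.lt_succ_self _) |>.symm, Polynomial.sum_def]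
      exact Finset.sum_congr rfl fun j _ => (Algebra.smul_def _ _).symm
    rw [eq_neg_of_add_eq_zero_left h2, Valuation.map_neg] at h1
    exact lt_irrefl _ h1
  obtain ⟨j, hj, hji, hv⟩ := key
  have fin : ∀ a ∈ P.support, ∀ b ∈ P.support, a < b →
      O.valuation (algebraMap A L (P.coeff a) * z ^ a) =
      O.valuation (algebraMap A L (P.coeff b) * z ^ b) →
      ∃ m : ℕ, 0 < m ∧ ∃ r : A, r ≠ 0 ∧ O.valuation z ^ m = O.valuation (algebraMap A L r) := by
    intro a ha b hb hab hv
    refine ⟨b - a, by omega, P.coeff a / P.coeff b,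
      div_ne_zero (mem_support_iff.1 ha) (mem_support_iff.1 hb), ?_⟩
    have e : z ^ b = z ^ (b - a) * z ^ a := by rw [← pow_add]; congr 1; omega
    have hb0 : O.valuation (algebraMap A L (P.coeff b)) ≠ 0 := (Valuation.ne_zero_iff _).2 (hc b hb)
    have hza : O.valuation (z ^ a) ≠ 0 := (Valuation.ne_zero_iff _).2 (pow_ne_zero _ hz)
    rw [e, map_mul, map_mul, map_mul] at hv
    rw [map_div₀, map_div₀, eq_div_iff hb0, ← map_pow]
    have : O.valuation (z ^ (b - a)) * O.valuation (algebraMap A L (P.coeff b)) * O.valuation (z ^ a)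
        = O.valuation (algebraMap A L (P.coeff a)) * O.valuation (z ^ a) := by
      rw [hv]; ac_rfl
    exact mul_right_cancel₀ hza this
  rcases lt_or_gt_of_ne hji with h | h
  · exact fin j hj i hi h hv
  · exact fin i hi j hj h hv.symm

/-- the values of the elements of `M` are the values of the constants -/
theorem M_val [IsAlgClosed κ] (hx : RatF κ x) (hG : Gauss V (algebraMap R M x) O) {z : M}
    (hz : z ≠ 0) (ha : IsAlgebraic R z) :
    ∃ c : κ, c ≠ 0 ∧ O.valuation z = O.valuation (algebraMap κ M c) := by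
  obtain ⟨m, hm, r, hr, h1⟩ := val_pow O hz ha
  obtain ⟨c, hc, h2⟩ := R_val hx hG hr
  obtain ⟨d, hd⟩ := IsAlgClosed.exists_pow_nat_eq c hm
  have hd0 : d ≠ 0 := by
    rintro rfl
    rw [zero_pow hm.ne'] at hd
    exact hc hd.symm
  refine ⟨d, hd0, ?_⟩
  rw [h2, ← hd, map_pow, map_pow] at h1
  exact pow_left_injective hm.ne' h1 

end cov

end Pool.Agent.Y155.PS
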