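import Pool.Agent.Y155.PS.Bas

/-!
# The value group of a prolongation of the Gauss valuation, and the faithful action
-/

set_option autoImplicit false
set_option linter.all false

open Polynomial FF Pool.Agent.Y157.PS

namespace Pool.Agent.Y155.PS

/-- an endomorphism of order `ℓ` has an eigenvalue different from `1` -/
theorem exists_eig {κ E : Type} [Field κ] [AddCommGroup E] [Module κ E] {ℓ : ℕ} (hℓ : 0 < ℓ)
    {ζ : κ} (hζ : IsPrimitiveRoot ζ ℓ) (T : Module.End κ E) (h1 : T ^ ℓ = 1) (h2 : T ≠ 1) :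
    ∃ c : κ, c ^ ℓ = 1 ∧ c ≠ 1 ∧ ∃ z : E, z ≠ 0 ∧ T z = c • z := by
  classical
  by_contra hcon
  push Not at hcon
  have inj : ∀ s : Finset κ, (∀ c ∈ s, c ^ ℓ = 1 ∧ c ≠ 1) →
      Function.Injective (aeval T (∏ c ∈ s, (X - C c))) := by
    intro s
    induction s using Finset.induction_on with
    | empty =>
      intro _
      rw [Finset.prod_empty, map_one]
      exact fun a b h => h
    | insert a s ha ih =>
      intro hs
      rw [Finset.prod_insert ha, map_mul]
      have i1 := ih fun c hc => hs c (Finset.mem_insert_of_mem hc)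
      have i2 : Function.Injective (aeval T (X - C a)) := by
        rw [injective_iff_map_eq_zero]
        intro z hz
        by_contra hz0
        obtain ⟨h3, h4⟩ := hs a (Finset.mem_insert_self _ _)
        apply hcon a h3 h4 z hz0
        rw [map_sub, aeval_X, aeval_C] at hz
        have : T z - a • z = 0 := hz
        exact sub_eq_zero.1 this
      exact i2.comp i1
  have e : (X ^ ℓ - 1 : κ[X]) = (∏ c ∈ (nthRootsFinset ℓ (1 : κ)).erase 1, (X - C c)) * (X - C 1) := by
    rw [X_pow_sub_one_eq_prod hℓ hζ, Finset.prod_erase_mul]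
    rw [mem_nthRootsFinset hℓ]
    exact one_pow _
  have h0 : aeval T (X ^ ℓ - 1 : κ[X]) = 0 := by
    rw [map_sub, map_pow, aeval_X, map_one, h1, sub_self]
  rw [e, map_mul] at h0
  apply h2
  ext z
  have h3 : aeval T (∏ c ∈ (nthRootsFinset ℓ (1 : κ)).erase 1, (X - C c)) (T z - z) = 0 := by
    have := LinearMap.congr_fun h0 z
    rw [Module.End.mul_apply] at this
    rw [C_1, map_sub, aeval_X, map_one] at this
    exact this
  have h4 := (injective_iff_map_eq_zero _).1 (inj _ fun c hc => by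
    obtain ⟨h5, h6⟩ := Finset.mem_erase.1 hc
    exact ⟨(mem_nthRootsFinset hℓ _).1 h6, h5⟩) _ h3
  exact sub_eq_zero.1 h4

/-- roots of unity are not congruent to `1` -/
theorem root_congr {κ : Type} [Field κ] (V : ValuationSubring κ) {ℓ : ℕ} (hℓ : IsU V (ℓ : κ))
    {c : κ} (h1 : c ^ ℓ = 1) (h2 : c - 1 ∈ V.nonunits) : c = 1 := by
  by_contra hc
  have h3 : ∑ i ∈ Finset.range ℓ, c ^ i = 0 := by
    have := geom_sum_mul c ℓ
    rw [h1, sub_self] at this
    exact (mul_eq_zero.1 this).resolve_right (sub_ne_zero.2 hc)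
  have hcV : c ∈ V := by
    have := add_mem (V.nonunits_subset h2) (one_mem V)
    rwa [sub_add_cancel] at this
  have h4 : ∀ i : ℕ, V.valuation (c ^ i - 1) < 1 := by
    intro i
    rw [← geom_sum_mul c i, map_mul]
    have h5 : V.valuation (∑ i ∈ Finset.range i, c ^ i) ≤ 1 :=
      (V.valuation_le_one_iff _).2 (sum_mem fun j _ => pow_mem hcV j)
    exact lt_of_le_of_lt (mul_le_of_le_one_left' h5) ((non_iff V).1 h2)
  have h5 : V.valuation (∑ i ∈ Finset.range ℓ, (c ^ i - 1)) < 1 :=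
    Valuation.map_sum_lt _ one_ne_zero fun i _ => h4 i
  rw [Finset.sum_sub_distrib, h3, Finset.sum_const, Finset.card_range, zero_sub,
    Valuation.map_neg, nsmul_eq_mul, mul_one, (isU_iff V).1 hℓ] at h5
  exact lt_irrefl _ h5

theorem g2 : S_G2 := by
  intro ℓ _ κ R M _ _ _ _ _ _ _ _ _ x B Y hC V O hG
  have := hC.gal
  have part1 : ∀ z : M, z ≠ 0 → ∃ c : κ, c ≠ 0 ∧ IsU O (z / algebraMap κ M c) := by
    intro z hz
    obtain ⟨c, hc, h⟩ := M_val hC.rat hG hz (Algebra.IsAlgebraic.isAlgebraic (R := R) z)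
    refine ⟨c, hc, ?_⟩
    have h0 : O.valuation (algebraMap κ M c) ≠ 0 :=
      (Valuation.ne_zero_iff _).2 ((_root_.map_ne_zero _).2 hc)
    rw [isU_iff, map_div₀, h, div_self h0]
  refine ⟨part1, fun hℓ N hN γ hγ => ?_⟩
  have hℓp : ℓ.Prime := Fact.out
  have := hN.gal
  have := hN.fin
  by_contra hcon
  push Not at hcon
  obtain ⟨y, hy, hne⟩ := hcon
  set g : N ≃ₐ[R] N := γ.restrictNormal N with hg
  have hgc : ∀ (n : ℕ) (z : N), (((g ^ n) z : N) : M) = (γ ^ n) (z : M) := by
    intro n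
    induction n with
    | zero => intro z; rfl
    | succ n ih =>
      intro z
      rw [pow_succ, pow_succ, AlgEquiv.mul_apply, AlgEquiv.mul_apply, ih (g z)]
      congr 1
      exact AlgEquiv.restrictNormal_commutes γ N z
  have hmem : ∀ (n : ℕ) (z : M), z ∈ N → (γ ^ n) z ∈ N := fun n z hz => by
    rw [← hgc n ⟨z, hz⟩]; exact ((g ^ n) _).2
  have hnon : ∀ (n : ℕ) (z : M), z ∈ O → z ∈ N → (γ ^ n) z - z ∈ O.nonunits := by
    intro n
    induction n with
    | zero => intro z _ _; rw [pow_zero, AlgEquiv.one_apply, sub_self]; exact zero_mem _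
    | succ n ih =>
      intro z hz hzN
      have h1 := ih z hz hzN
      have h2 : (γ ^ n) z ∈ O := by
        have := add_mem (O.nonunits_subset h1) hz
        rwa [sub_add_cancel] at this
      have h3 := hγ _ h2 (hmem n z hzN)
      have := add_mem h3 h1
      rw [pow_succ', AlgEquiv.mul_apply]
      rwa [sub_add_sub_cancel] at this
  -- the order of `g`
  have g1 : g ≠ 1 := by
    intro h
    apply hne
    have := hgc 1 ⟨y, hy⟩
    rw [pow_one, pow_one, h] at this
    exact this.symm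
  obtain ⟨m, hm⟩ := hN.card
  have hcard : g ^ (ℓ ^ m) = 1 := by
    rw [← hm, ← IsGalois.card_aut_eq_finrank R N]
    exact pow_card_eq_one'
  have hpow : ∃ a : ℕ, g ^ (ℓ ^ a) ≠ 1 ∧ g ^ (ℓ ^ (a + 1)) = 1 := by
    classical
    have hex : ∃ a : ℕ, g ^ (ℓ ^ a) = 1 := ⟨m, hcard⟩
    have hf := Nat.find_spec hex
    have hpos : Nat.find hex ≠ 0 := by
      intro h
      rw [h, pow_zero, pow_one] at hf
      exact g1 hf
    refine ⟨Nat.find hex - 1, Nat.find_min hex (by omega), ?_⟩
    rwa [Nat.sub_add_cancel (by omega)]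
  obtain ⟨a, ha1, ha2⟩ := hpow
  obtain ⟨ζ, hζ⟩ := HasEnoughRootsOfUnity.exists_primitiveRoot κ ℓ
  let T : Module.End κ N := (g ^ (ℓ ^ a)).toAlgHom.toLinearMap.restrictScalars κ
  have hT : ∀ z, T z = (g ^ (ℓ ^ a)) z := fun z => rfl
  have hTn : ∀ (n : ℕ) z, (T ^ n) z = ((g ^ (ℓ ^ a)) ^ n) z := by
    intro n
    induction n with
    | zero => intro z; rfl
    | succ n ih =>
      intro z
      rw [pow_succ, pow_succ, Module.End.mul_apply, AlgEquiv.mul_apply, ih, hT]
  obtain ⟨c, hc1, hc2, z, hz0, hz⟩ := exists_eig hℓp.pos hζ T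
    (by ext z; rw [hTn, ← pow_mul, ← pow_succ, ha2]; rfl)
    (fun h => ha1 (by ext z; rw [← hT, h]; rfl))
  have hz0' : (z : M) ≠ 0 := fun h => hz0 (Subtype.ext h)
  obtain ⟨d, hd, hu⟩ := part1 z hz0'
  have hdN : (z : M) / algebraMap κ M d ∈ N := by
    have : algebraMap κ M d ∈ N := by
      rw [IsScalarTower.algebraMap_apply κ R M]
      exact N.algebraMap_mem _
    exact div_mem z.2 this
  have h5 := hnon (ℓ ^ a) _ hu.2.1 hdN
  have h6 : (γ ^ (ℓ ^ a)) (z : M) = algebraMap κ M c * z := by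
    have h7 : (((g ^ (ℓ ^ a)) z : N) : M) = algebraMap κ M c * z := by
      rw [← hT, hz, Algebra.smul_def]
      rw [IsScalarTower.algebraMap_apply κ R N, IsScalarTower.algebraMap_apply κ R M]
      rfl
    rw [← hgc, h7]
  have h7 : (γ ^ (ℓ ^ a)) (algebraMap κ M d) = algebraMap κ M d := by
    rw [IsScalarTower.algebraMap_apply κ R M]
    exact AlgEquiv.commutes _ _
  rw [map_div₀, h6, h7] at h5
  have h8 : algebraMap κ M c * (z : M) / algebraMap κ M d - (z : M) / algebraMap κ M d =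
      algebraMap κ M (c - 1) * ((z : M) / algebraMap κ M d) := by
    rw [map_sub, map_one]; ring
  rw [h8, non_iff, map_mul, (isU_iff O).1 hu, mul_one, g_lt hG, ← non_iff] at h5
  exact hc2 (root_congr V hℓ hc1 h5)

end Pool.Agent.Y155.PS
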