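import Pool.Agent.Y155.PS.Bas

/-!
# Automorphisms of the residue field lift
-/

set_option autoImplicit false
set_option linter.all false

open Polynomial FF Pool.Agent.Y157.PS

namespace Pool.Agent.Y155.PS

/-- the abstract lifting statement -/
theorem lift_aut {A B G k : Type} [CommRing A] [CommRing B] [Algebra A B] [Group G]
    [MulSemiringAction G B] [SMulCommClass G A B] [TopologicalSpace G] [CompactSpace G]
    [TotallyDisconnectedSpace G] [IsTopologicalGroup G] [TopologicalSpace B] [DiscreteTopology B]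
    [ContinuousSMul G B] [Algebra.IsInvariant A B G] [Field k] (r : B →+* k)
    (hr : Function.Surjective r) (τ : k ≃+* k)
    (hτ : ∀ a : A, τ (r (algebraMap A B a)) = r (algebraMap A B a)) :
    ∃ g : G, ∀ b, r (g • b) = τ (r b) := by
  let Q : Ideal B := RingHom.ker r
  haveI : Q.IsPrime := RingHom.ker_isPrime r
  let P : Ideal A := Q.under A
  let e : B ⧸ Q ≃+* k := RingHom.quotientKerEquivOfSurjective hr
  have he : ∀ b, e (Ideal.Quotient.mk Q b) = r b := fun b => rfl
  let σ : (B ⧸ Q) ≃ₐ[A ⧸ P] (B ⧸ Q) := AlgEquiv.ofRingEquiv (f := (e.trans τ).trans e.symm) (by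
    intro a
    obtain ⟨a, rfl⟩ := Ideal.Quotient.mk_surjective a
    have h1 : algebraMap (A ⧸ P) (B ⧸ Q) (Ideal.Quotient.mk P a) =
      Ideal.Quotient.mk Q (algebraMap A B a) := rfl
    rw [h1]
    apply e.injective
    change e (e.symm (τ (e _))) = e _
    rw [e.apply_symm_apply, he, hτ])
  obtain ⟨g, hg⟩ := Ideal.Quotient.stabilizerHom_surjective_of_profinite (G := G) P Q σ
  refine ⟨g.1, fun b => ?_⟩
  have h2 := AlgEquiv.congr_fun hg (Ideal.Quotient.mk Q b)
  have h3 : Ideal.Quotient.stabilizerHom Q P G g (Ideal.Quotient.mk Q b) =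
    Ideal.Quotient.mk Q (g.1 • b) := rfl
  rw [h3] at h2
  have h4 := congrArg e h2
  rw [he] at h4
  rw [h4]
  change e (e.symm (τ (e _))) = _
  rw [e.apply_symm_apply, he]

section
variable {κ R M : Type} [Field κ] [Field R] [Field M] [Algebra κ R] [Algebra R M] [Algebra κ M]
  [IsScalarTower κ R M] {x : R} {V : ValuationSubring κ} {O : ValuationSubring M}

theorem x_unit (hG : Gauss V (algebraMap R M x) O) : IsU O (algebraMap R M x) := by
  have := hG.2 X (fun n => by
    rw [coeff_X]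
    split_ifs
    · exact one_mem _
    · exact zero_mem _) ⟨1, by rw [coeff_X_one]; exact ⟨one_ne_zero, one_mem _, by
      rw [inv_one]; exact one_mem _⟩⟩
  rwa [aeval_X] at this

theorem x_mem (hG : Gauss V (algebraMap R M x) O) : algebraMap R M x ∈ O := (x_unit hG).2.1

theorem poly_in (S : Subring M) (hc : ∀ c ∈ V, algebraMap κ M c ∈ S)
    (hX : algebraMap R M x ∈ S) (p : κ[X]) (hp : ∀ n, p.coeff n ∈ V) :
    aeval (algebraMap R M x) p ∈ S := by
  rw [aeval_eq_sum_range]
  refine sum_mem fun i _ => ?_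
  rw [Algebra.smul_def]
  exact mul_mem (hc _ (hp i)) (pow_mem hX i)

theorem R_in (hx : RatF κ x) (hG : Gauss V (algebraMap R M x) O) (S : Subring M)
    (hc : ∀ c ∈ V, algebraMap κ M c ∈ S) (hX : algebraMap R M x ∈ S)
    (hinv : ∀ z ∈ S, IsU O z → z⁻¹ ∈ S) (r : R) (hr : algebraMap R M r ∈ O) :
    algebraMap R M r ∈ S := by
  by_cases h0 : r = 0
  · rw [h0, map_zero]; exact zero_mem _
  obtain ⟨c, hc0, p, q, h1, h2, h3, h4, h⟩ := R_repr (V := V) hx h0
  have u1 := hG.2 p h1 h2
  have u2 := hG.2 q h3 h4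
  have e : algebraMap R M r = algebraMap κ M c *
      (aeval (algebraMap R M x) p * (aeval (algebraMap R M x) q)⁻¹) := by
    rw [h, map_mul, map_div₀, aeval_R, aeval_R, ← IsScalarTower.algebraMap_apply, div_eq_mul_inv]
  have hcV : c ∈ V := by
    rw [← V.valuation_le_one_iff, ← g_le hG]
    rw [← O.valuation_le_one_iff, e, map_mul, map_mul, map_inv₀, (isU_iff O).1 u1,
      (isU_iff O).1 u2, inv_one, mul_one, mul_one] at hr
    exact hr
  rw [e]
  exact mul_mem (hc c hcV) (mul_mem (poly_in S hc hX p h1) (hinv _ (poly_in S hc hX q h3) u2))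

/-- `Gal(M/R)` stabilises `O` -/
theorem stab_O (hG : Gauss V (algebraMap R M x) O)
    (hu : ∀ O' : ValuationSubring M, Gauss V (algebraMap R M x) O' → O' = O) (γ : M ≃ₐ[R] M)
    (z : M) : γ z ∈ O ↔ z ∈ O := by
  have hγ : ∀ c : κ, γ (algebraMap κ M c) = algebraMap κ M c := fun c => by
    rw [IsScalarTower.algebraMap_apply κ R M, AlgEquiv.commutes]
  have h1 : Gauss V (algebraMap R M x) (O.comap (γ : M →+* M)) := by
    refine ⟨fun c => ?_, fun p h1 h2 => ?_⟩
    · rw [← hG.1 c]
      change γ (algebraMap κ M c) ∈ O ↔ _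
      rw [hγ]
    · have h3 := hG.2 p h1 h2
      have h4 : γ (aeval (algebraMap R M x) p) = aeval (algebraMap R M x) p := by
        rw [← aeval_R, AlgEquiv.commutes]
      refine ⟨h3.1, ?_, ?_⟩
      · change γ _ ∈ O
        rw [h4]; exact h3.2.1
      · change γ _ ∈ O
        rw [map_inv₀, h4]; exact h3.2.2
  have h2 := hu _ h1
  constructor
  · intro h
    have : z ∈ O.comap (γ : M →+* M) := h
    rwa [h2] at this
  · intro h
    rw [← h2] at h
    exact h

end

theorem g3 : S_G3 := by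
  intro ℓ _ κ R M _ _ _ _ _ _ _ _ _ x B Y hC V O hG hu k _ r hr τ hτ1 hτ2
  have hgal := hC.gal
  have st := stab_O hG hu
  letI act : MulSemiringAction (M ≃ₐ[R] M) O :=
    { smul := fun g z => ⟨g z, (st g z).2 z.2⟩
      one_smul := fun z => rfl
      mul_smul := fun g h z => rfl
      smul_zero := fun g => Subtype.ext (map_zero g)
      smul_add := fun g a b => Subtype.ext (map_add g _ _)
      smul_one := fun g => Subtype.ext (map_one g)
      smul_mul := fun g a b => Subtype.ext (map_mul g _ _) }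
  have hsm : ∀ (g : M ≃ₐ[R] M) (z : O), ((g • z : O) : M) = g z := fun g z => rfl
  let A : Subring R := (O.comap (algebraMap R M)).toSubring
  let i : A →+* O := ((algebraMap R M).comp A.subtype).codRestrict O.toSubring (fun a => a.2)
  letI : Algebra A O := i.toAlgebra
  have hi : ∀ a : A, ((algebraMap A O a : O) : M) = algebraMap R M a := fun a => rfl
  haveI : SMulCommClass (M ≃ₐ[R] M) A O := ⟨fun g a z => by
    apply Subtype.ext
    rw [hsm, Algebra.smul_def, Algebra.smul_def]
    change g (algebraMap R M a * z) = algebraMap R M a * g z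
    rw [map_mul, AlgEquiv.commutes]⟩
  letI : TopologicalSpace O := ⊥
  haveI : DiscreteTopology O := ⟨rfl⟩
  haveI : ContinuousSMul (M ≃ₐ[R] M) O := by
    rw [continuousSMul_iff_stabilizer_isOpen]
    intro z
    have h := stabilizer_isOpen_of_isIntegral (K := R) (L := M) (z : M)
    have e : (MulAction.stabilizer (M ≃ₐ[R] M) z : Set (M ≃ₐ[R] M)) =
        MulAction.stabilizer (M ≃ₐ[R] M) (z : M) := by
      ext g
      simp only [SetLike.mem_coe, MulAction.mem_stabilizer_iff]
      rw [Subtype.ext_iff, hsm]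
      rfl
    rw [e]
    exact h
  haveI : Algebra.IsInvariant A O (M ≃ₐ[R] M) := ⟨fun z hz => by
    have h1 : (z : M) ∈ Set.range (algebraMap R M) := by
      rw [InfiniteGalois.mem_range_algebraMap_iff_fixed]
      intro g
      rw [← hsm, hz g]
    obtain ⟨a, ha⟩ := h1
    refine ⟨⟨a, ?_⟩, ?_⟩
    · change algebraMap R M a ∈ O
      rw [ha]; exact z.2
    · apply Subtype.ext
      rw [hi]; exact ha⟩
  -- the fixed ring
  let S : Subring M := (((τ : k →+* k).comp r).eqLocus r).map O.subtype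
  have hS : ∀ (z : M) (hz : z ∈ O), z ∈ S ↔ τ (r ⟨z, hz⟩) = r ⟨z, hz⟩ := by
    intro z hz
    constructor
    · rintro ⟨w, hw, h⟩
      have : w = ⟨z, hz⟩ := Subtype.ext h
      rw [← this]; exact hw
    · intro h
      exact ⟨⟨z, hz⟩, h, rfl⟩
  have hfix : ∀ a : A, τ (r (algebraMap A O a)) = r (algebraMap A O a) := by
    intro a
    have ha : algebraMap R M a ∈ O := a.2
    have h1 := R_in hC.rat hG S (fun c hc => (hS _ ((hG.1 c).2 hc)).2 (hτ1 c _))
      ((hS _ (x_mem hG)).2 (hτ2 _)) (fun z hz hzu => by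
        have h3 := (hS z hzu.2.1).1 hz
        rw [hS z⁻¹ hzu.2.2]
        have h4 : r ⟨z, hzu.2.1⟩ * r ⟨z⁻¹, hzu.2.2⟩ = 1 := by
          rw [← map_mul, ← map_one r]
          congr 1
          exact Subtype.ext (mul_inv_cancel₀ hzu.1)
        have h5 : r ⟨z⁻¹, hzu.2.2⟩ = (r ⟨z, hzu.2.1⟩)⁻¹ := eq_inv_of_mul_eq_one_right h4
        rw [h5, map_inv₀, h3]) a ha
    exact (hS _ ha).1 h1
  obtain ⟨g, hg⟩ := lift_aut (A := A) (G := M ≃ₐ[R] M) r hr.surj τ hfix
  exact ⟨g, fun z hz hγ => hg ⟨z, hz⟩⟩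

end Pool.Agent.Y155.PS
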