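import Pool.Agent.Y155.PS.Resi
import Pool.Agent.Y155.PS.G2

/-!
# The residue field of a level
-/

set_option autoImplicit false
set_option linter.all false

open Polynomial FF Pool.Agent.Y157.PS

namespace Pool.Agent.Y155.PS

theorem sep_of {L k : Type} [Field L] [Field k] [Algebra L k] (E : IntermediateField L k)
    (h : Algebra.IsSeparable L E) (z : k) (hz : z ∈ E) : IsSeparable L z := by
  have h1 : IsSeparable L (⟨z, hz⟩ : E) := h.isSeparable' ⟨z, hz⟩
  have h2 : IsSeparable L (algebraMap E k ⟨z, hz⟩) := by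
    unfold IsSeparable at h1 ⊢
    rw [minpoly.algebraMap_eq (algebraMap E k).injective]
    exact h1
  exact h2

section cov
variable {κ R M : Type} [Field κ] [Field R] [Field M] [Algebra κ R] [Algebra R M] [Algebra κ M]
  [IsScalarTower κ R M] {x : R} {V : ValuationSubring κ} {O : ValuationSubring M}
  {F : Type} [Field F] {r : V →+* F} {k : Type} [Field k] [Algebra F k] {s : O →+* k} {xb : k}

/-- lifts of linearly independent elements are linearly independent -/
theorem lin_lift (hx : RatF κ x) (hG : Gauss V (algebraMap R M x) O) (hs : Res O s)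
    (hsr : ∀ (c : κ) (hc : c ∈ V) (hc' : algebraMap κ M c ∈ O),
      s ⟨_, hc'⟩ = algebraMap F k (r ⟨c, hc⟩))
    (hxb : ∀ hx : algebraMap R M x ∈ O, s ⟨_, hx⟩ = xb) {ι : Type} [Fintype ι]
    (v : ι → M) (hv : ∀ i, v i ∈ O)
    (hli : LinearIndependent (IntermediateField.adjoin F {xb}) (fun i => s ⟨v i, hv i⟩)) :
    LinearIndependent R v := by
  classical
  rw [Fintype.linearIndependent_iff]
  intro a ha
  by_contra hcon
  push Not at hcon
  obtain ⟨j, hj⟩ := hcon
  obtain ⟨i, -, hmax⟩ := Finset.exists_max_image Finset.univ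
    (fun i => O.valuation (algebraMap R M (a i))) ⟨j, Finset.mem_univ j⟩
  have hi : a i ≠ 0 := by
    intro h0
    have := hmax j (Finset.mem_univ j)
    rw [h0, map_zero, map_zero, le_zero_iff, Valuation.zero_iff] at this
    exact hj ((_root_.map_eq_zero _).1 this)
  have hi' : algebraMap R M (a i) ≠ 0 := (_root_.map_ne_zero _).2 hi
  have hb : ∀ j, algebraMap R M (a j / a i) ∈ O := by
    intro j
    rw [← O.valuation_le_one_iff, map_div₀, map_div₀]
    have h0 : O.valuation (algebraMap R M (a i)) ≠ 0 := (Valuation.ne_zero_iff _).2 hi'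
    rw [div_le_iff₀ (zero_lt_iff.2 h0), one_mul]
    exact hmax j (Finset.mem_univ j)
  have h1 : ∑ j, algebraMap R M (a j / a i) * v j = 0 := by
    have : ∑ j, algebraMap R M (a j / a i) * v j = (algebraMap R M (a i))⁻¹ * ∑ j, a j • v j := by
      rw [Finset.mul_sum]
      refine Finset.sum_congr rfl fun j _ => ?_
      rw [map_div₀, Algebra.smul_def]
      field_simp
    rw [this, ha, mul_zero]
  have h2 : ∑ j, (⟨s ⟨_, hb j⟩, R_res hx hG hs hsr hxb _ (hb j)⟩ :
      IntermediateField.adjoin F {xb}) • s ⟨v j, hv j⟩ = 0 := by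
    have e : (∑ j, (⟨_, hb j⟩ : O) * ⟨v j, hv j⟩) = 0 := by
      apply Subtype.ext
      change O.subtype _ = O.subtype 0
      rw [map_sum, map_zero]
      exact h1
    have := congrArg s e
    rw [map_sum, map_zero] at this
    rw [← this]
    refine Finset.sum_congr rfl fun j _ => ?_
    rw [map_mul]
    rfl
  have h3 := (Fintype.linearIndependent_iff.1 hli) _ h2 i
  have h4 : s ⟨_, hb i⟩ = 0 := congrArg Subtype.val h3
  have h5 : (⟨_, hb i⟩ : O) = 1 := by
    apply Subtype.ext
    change algebraMap R M (a i / a i) = 1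
    rw [div_self hi, map_one]
  rw [h5, map_one] at h4
  exact one_ne_zero h4

/-- the automorphisms of the residue field induced by `Gal(M/R)` are trivial on `F(xb)` -/
theorem red_fix (hr : Res V r) (hG : Gauss V (algebraMap R M x) O)
    (hsr : ∀ (c : κ) (hc : c ∈ V) (hc' : algebraMap κ M c ∈ O),
      s ⟨_, hc'⟩ = algebraMap F k (r ⟨c, hc⟩))
    (hxb : ∀ hx : algebraMap R M x ∈ O, s ⟨_, hx⟩ = xb) (γ : M ≃ₐ[R] M)
    (hγ : ∀ z, γ z ∈ O ↔ z ∈ O) (τ : k ≃+* k)
    (hτ : ∀ (z : M) (hz : z ∈ O), τ (s ⟨z, hz⟩) = s ⟨γ z, (hγ z).2 hz⟩) :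
    ∀ y ∈ IntermediateField.adjoin F {xb}, τ y = y := by
  intro y hy
  induction hy using IntermediateField.adjoin_induction with
  | mem y hy =>
    rw [Set.mem_singleton_iff] at hy
    rw [hy, ← hxb (x_mem hG), hτ]
    congr 1
    exact Subtype.ext (AlgEquiv.commutes _ _)
  | algebraMap c =>
    obtain ⟨⟨d, hd⟩, rfl⟩ := hr.surj c
    rw [← hsr d hd ((hG.1 _).2 hd), hτ]
    congr 1
    apply Subtype.ext
    change γ (algebraMap κ M d) = algebraMap κ M d
    rw [IsScalarTower.algebraMap_apply κ R M, AlgEquiv.commutes]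
  | add a b _ _ ha hb => rw [map_add, ha, hb]
  | inv a _ ha => rw [map_inv₀, ha]
  | mul a b _ _ ha hb => rw [map_mul, ha, hb]

theorem adjoin_le (hx : RatF κ x) (hG : Gauss V (algebraMap R M x) O)
    (hxb : ∀ hx : algebraMap R M x ∈ O, s ⟨_, hx⟩ = xb) (N : IntermediateField R M)
    (Nb : IntermediateField F k)
    (hNb : ∀ y, y ∈ Nb ↔ ∃ (z : M) (hz : z ∈ O), z ∈ N ∧ s ⟨z, hz⟩ = y) :
    IntermediateField.adjoin F {xb} ≤ Nb := by
  rw [IntermediateField.adjoin_le_iff, Set.singleton_subset_iff]
  exact (hNb xb).2 ⟨_, x_mem hG, N.algebraMap_mem _, hxb _⟩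

/-- the degree of the residue field of a level -/
theorem rank_res (hx : RatF κ x) (hG : Gauss V (algebraMap R M x) O) (hs : Res O s)
    (hsr : ∀ (c : κ) (hc : c ∈ V) (hc' : algebraMap κ M c ∈ O),
      s ⟨_, hc'⟩ = algebraMap F k (r ⟨c, hc⟩))
    (hxb : ∀ hx : algebraMap R M x ∈ O, s ⟨_, hx⟩ = xb) (N : IntermediateField R M)
    [FiniteDimensional R N] (E : IntermediateField (IntermediateField.adjoin F {xb}) k)
    (hE : ∀ y, y ∈ E → ∃ (z : M) (hz : z ∈ O), z ∈ N ∧ s ⟨z, hz⟩ = y) :
    FiniteDimensional (IntermediateField.adjoin F {xb}) E ∧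
    Module.finrank (IntermediateField.adjoin F {xb}) E ≤ Module.finrank R N := by
  have h1 : Module.rank (IntermediateField.adjoin F {xb}) E ≤ (Module.finrank R N : ℕ) := by
    apply rank_le
    intro t ht
    choose v hv hvN hvs using fun i : t => hE (i : E) (i : E).2
    have h2 : LinearIndependent (IntermediateField.adjoin F {xb}) (fun i : t => s ⟨v i, hv i⟩) := by
      have h3 := ht.map' E.val.toLinearMap (LinearMap.ker_eq_bot.2 E.val.injective)
      have e : (fun i : t => s ⟨v i, hv i⟩) = fun i : t => ((i : E) : k) := funext hvs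
      rw [e]
      exact h3
    have h3 := lin_lift hx hG hs hsr hxb v hv h2
    have h4 : LinearIndependent R (fun i => (⟨v i, hvN i⟩ : N)) :=
      LinearIndependent.of_comp N.val.toLinearMap h3
    have h5 := h4.fintype_card_le_finrank
    rwa [Fintype.card_coe] at h5
  have h2 : Module.Finite (IntermediateField.adjoin F {xb}) E := by
    rw [← Module.rank_lt_aleph0_iff]
    exact lt_of_le_of_lt h1 (Cardinal.natCast_lt_aleph0)
  exact ⟨h2, Module.finrank_le_of_rank_le h1⟩

end cov

theorem g5 : S_G5 := by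
  intro ℓ _ κ R M _ _ _ _ _ _ _ _ _ x B Y hC F _ V r hr hℓ O hG hu k _ _ s hs hsr xb hxb
  refine ⟨xb_trans hr hG hs hsr hxb, fun N hN Nb hNb => ?_⟩
  have hgal := hC.gal
  have := hN.gal
  have := hN.fin
  have st := stab_O hG hu
  have hLN := adjoin_le hC.rat hG hxb N Nb hNb
  let E : IntermediateField (IntermediateField.adjoin F {xb}) k :=
    IntermediateField.extendScalars hLN
  have hE : ∀ y, y ∈ E ↔ y ∈ Nb := fun y => Iff.rfl
  obtain ⟨hfin, hrank⟩ := rank_res hC.rat hG hs hsr hxb N E (fun y hy => (hNb y).1 hy)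
  constructor
  · have h1 : (IntermediateField.toSubalgebra E).toSubmodule.FG := by
      rw [← Module.Finite.iff_fg]
      exact hfin
    obtain ⟨b, hb⟩ := h1
    refine ⟨b, fun z hz => ?_⟩
    rw [hb]
    exact hz
  · -- separability
    choose τ hτ using fun g : N ≃ₐ[R] N => exists_red hs (g.liftNormal M).toRingEquiv
      (fun z => st (g.liftNormal M) z)
    have hfix : ∀ g, ∀ y ∈ IntermediateField.adjoin F {xb}, τ g y = y := fun g =>
      red_fix hr hG hsr hxb (g.liftNormal M) (fun z => st (g.liftNormal M) z) (τ g) (hτ g)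
    let φ : (N ≃ₐ[R] N) → (E →ₐ[IntermediateField.adjoin F {xb}] AlgebraicClosure k) := fun g =>
      (IsScalarTower.toAlgHom (IntermediateField.adjoin F {xb}) k (AlgebraicClosure k)).comp
        { toRingHom := ((τ g : k ≃+* k) : k →+* k).comp (algebraMap E k)
          commutes' := fun y => hfix g y y.2 }
    have hφ : Function.Injective φ := by
      intro g g' hgg
      have h1 : ∀ y ∈ Nb, τ g y = τ g' y := by
        intro y hy
        have := AlgHom.congr_fun hgg (⟨y, hy⟩ : E)
        exact (algebraMap k (AlgebraicClosure k)).injective this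
      have h2 : ∀ z ∈ O, z ∈ N → ((g'.liftNormal M)⁻¹ * g.liftNormal M) z - z ∈ O.nonunits := by
        intro z hz hzN
        have h3 := h1 (s ⟨z, hz⟩) ((hNb _).2 ⟨z, hz, hzN, rfl⟩)
        rw [hτ, hτ, s_eq_iff hs] at h3
        rw [← non_map (g'.liftNormal M).toRingEquiv (fun z => st _ z)]
        have h4 : (g'.liftNormal M).toRingEquiv (((g'.liftNormal M)⁻¹ * g.liftNormal M) z - z) =
            (g.liftNormal M) z - (g'.liftNormal M) z := by
          rw [map_sub]
          congr 1
          exact (g'.liftNormal M).apply_symm_apply _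
        rw [h4]
        exact h3
      have h3 := (g2 ℓ κ R M x B Y hC V O hG).2 hℓ N hN _ h2
      ext z
      have h4 := h3 (z : M) z.2
      have h5 : (g.liftNormal M) (z : M) = (g'.liftNormal M) (z : M) := by
        have h6 := congrArg (g'.liftNormal M) h4
        rw [← h6]
        exact ((g'.liftNormal M).apply_symm_apply _).symm
      have h6 : ((g z : N) : M) = g.liftNormal M (z : M) := (g.liftNormal_commutes M z).symm
      have h7 : ((g' z : N) : M) = g'.liftNormal M (z : M) := (g'.liftNormal_commutes M z).symm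
      rw [h6, h7, h5]
    have h1 : Nat.card (N ≃ₐ[R] N) ≤
        Nat.card (E →ₐ[IntermediateField.adjoin F {xb}] AlgebraicClosure k) :=
      Nat.card_le_card_of_injective φ hφ
    rw [IsGalois.card_aut_eq_finrank, ← Field.finSepDegree_eq_of_isAlgClosed] at h1
    have h2 := Field.finSepDegree_le_finrank (IntermediateField.adjoin F {xb}) E
    have h3 : Field.finSepDegree (IntermediateField.adjoin F {xb}) E =
      Module.finrank (IntermediateField.adjoin F {xb}) E := by omega
    rw [Field.finSepDegree_eq_finrank_iff] at h3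
    exact fun z hz => sep_of E h3 z hz

end Pool.Agent.Y155.PS
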