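import Pool.Agent.Y155.PS.G4c
import Pool.Agent.Y155.PS.G5

/-!
# The residue field of `M` is unramified over the residue field of a level
-/

set_option autoImplicit false
set_option linter.all false

open Polynomial FF Pool.Agent.Y157.PS

namespace Pool.Agent.Y155.PS

/-- the place of `F(xb)` below a place of an algebraic extension -/
theorem place_cases {F L K : Type} [Field F] [IsAlgClosed F] [Field L] [Field K] [Algebra F K]
    [Algebra L K] [Algebra.IsAlgebraic L K] (w : Place F K) {x : K} (hx : Transcendental F x)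
    (hL : ∀ a : L, ∃ p q : F[X], algebraMap L K a = aeval x p / aeval x q) :
    w.ord x < 0 ∨ ∃ a : F, 0 < w.ord (x - algebraMap F K a) := by
  by_contra hcon
  push Not at hcon
  obtain ⟨h1, h2⟩ := hcon
  have hne : ∀ {p : F[X]}, p ≠ 0 → aeval x p ≠ 0 := fun hp h0 => hp ((transcendental_iff.1 hx) _ h0)
  have h3 : ∀ a : F, w.ord (x - algebraMap F K a) = 0 := by
    intro a
    refine le_antisymm (h2 a) ?_
    have h4 : w.Reg (x - algebraMap F K a) := by
      rw [sub_eq_add_neg]
      exact w.reg_add (Or.inr h1) (w.reg_neg (w.reg_const a))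
    exact (w.reg_iff (sub_ne_zero_of_trans hx a)).1 h4
  have h4 : ∀ {p : F[X]}, p ≠ 0 → w.ord (aeval x p) = 0 := by
    intro p hp
    rw [ord_aeval w hx hp]
    apply Multiset.sum_eq_zero
    intro z hz
    obtain ⟨a, -, rfl⟩ := Multiset.mem_map.1 hz
    exact h3 a
  obtain ⟨t, ht0, ht⟩ := w.surj
  obtain ⟨m, hm, a, ha, h5⟩ := val_pow w.O ht0 (Algebra.IsAlgebraic.isAlgebraic (R := L) t)
  have ha' : algebraMap L K a ≠ 0 := (_root_.map_ne_zero _).2 ha
  have h6 : w.ord (algebraMap L K a) = 0 := by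
    obtain ⟨p, q, h⟩ := hL a
    by_cases hp : p = 0
    · rw [h, hp, map_zero, zero_div] at ha'
      exact absurd rfl ha'
    by_cases hq : q = 0
    · rw [h, hq, map_zero, div_zero] at ha'
      exact absurd rfl ha'
    rw [h, w.ord_div (hne hp) (hne hq), h4 hp, h4 hq, sub_zero]
  have h7 : IsU w.O (t ^ m / algebraMap L K a) := by
    rw [isU_iff, map_div₀, map_pow, h5, div_self ((Valuation.ne_zero_iff _).2 ha')]
  have hne' : t ^ m / algebraMap L K a ≠ 0 := h7.1
  have h8 : w.ord (t ^ m / algebraMap L K a) = m := by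
    rw [w.ord_div (pow_ne_zero _ ht0) ha', w.ord_pow, ht, h6]; ring
  have h9 := (w.reg_iff (inv_ne_zero hne')).1 h7.2.2
  rw [w.ord_inv, h8] at h9
  omega

theorem g4 (hE : S_EMB) (hCJ : S_CONJ) (hEX : S_EXTV) : S_G4 := by
  classical
  intro ℓ _ κ R M _ _ _ _ _ _ _ _ _ x B Y hC F _ V r hr hg hℓV D O hG hu k _ _ s hs hsr N hN hYN
    Nb hNb h hh n hhi hh0 hhN w y hy
  have hgal := hC.gal
  haveI := isAlgClosed_res hr
  have hℓ : ℓ.Prime := Fact.out
  have hℓ0 : (0 : ℤ) < ℓ := by exact_mod_cast hℓ.pos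
  set xb : k := s ⟨_, x_mem hG⟩ with hxbd
  have hxb : ∀ hx : algebraMap R M x ∈ O, s ⟨_, hx⟩ = xb := fun _ => rfl
  have htr : Transcendental F xb := xb_trans hr hG hs hsr hxb
  have hLN := adjoin_le hC.rat hG hxb N Nb hNb
  have hxL : xb ∈ IntermediateField.adjoin F {xb} := IntermediateField.mem_adjoin_simple_self F xb
  haveI hnor : Normal (IntermediateField.adjoin F {xb}) k := normal_res hC.rat hG hu hs hsr hxb
  letI algLN : Algebra (IntermediateField.adjoin F {xb}) Nb :=
    (IntermediateField.inclusion hLN).toRingHom.toAlgebra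
  haveI : IsScalarTower (IntermediateField.adjoin F {xb}) Nb k :=
    IsScalarTower.of_algebraMap_eq fun _ => rfl
  haveI : Algebra.IsAlgebraic (IntermediateField.adjoin F {xb}) Nb := ⟨fun t => by
    rw [← isAlgebraic_algebraMap_iff (algebraMap Nb k).injective]
    exact hnor.toIsAlgebraic.isAlgebraic _⟩
  let xN : Nb := ⟨xb, hLN hxL⟩
  have htrN : Transcendental F xN := by
    intro h0
    exact htr (h0.algebraMap (A := k) (R := F))
  have haev : ∀ p : F[X], ((aeval xN p : Nb) : k) = aeval xb p := fun p =>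
    (aeval_algebraMap_apply k xN p).symm
  have hLpq : ∀ a : IntermediateField.adjoin F {xb}, ∃ p q : F[X],
      (a : k) = aeval xb p / aeval xb q := fun a =>
    (IntermediateField.mem_adjoin_simple_iff F _).1 a.2
  have hLpqN : ∀ a : IntermediateField.adjoin F {xb}, ∃ p q : F[X],
      algebraMap (IntermediateField.adjoin F {xb}) Nb a = aeval xN p / aeval xN q := by
    intro a
    obtain ⟨p, q, hpq⟩ := hLpq a
    refine ⟨p, q, ?_⟩
    apply Subtype.ext
    change (a : k) = ((aeval xN p / aeval xN q : Nb) : k)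
    rw [hpq, IntermediateField.coe_div, haev, haev]
  -- the place of the disc
  have main : ∃ (W : Place F k) (f : F → ℤ) (m m' : ℤ) (t : k), 0 < m ∧ 0 < m' ∧
      (∀ a, w.ord (xN - algebraMap F Nb a) = m * f a) ∧
      (∀ a, W.ord (xb - algebraMap F k a) = m' * f a) ∧ t ∈ Nb ∧
      ∀ δ : k ≃ₐ[IntermediateField.adjoin F {xb}] k, W.ord (δ t) = 1 := by
    have hδ : ∀ (δ : k ≃ₐ[IntermediateField.adjoin F {xb}] k) (z : k),
        z ∈ IntermediateField.adjoin F {xb} → δ z = z := fun δ z hz => δ.commutes ⟨z, hz⟩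
    rcases place_cases (L := IntermediateField.adjoin F {xb}) w htrN hLpqN with h1 | ⟨a, h1⟩
    · obtain ⟨W, hW⟩ := case_inf hE hC hr hg D hG hu hs hsr
      have hW' : W.ord xb = -1 := hW
      refine ⟨W, fun _ => -1, -w.ord xN, 1, xb⁻¹, by omega, one_pos, fun a => ?_, fun a => ?_,
        inv_mem (hLN hxL), fun δ => ?_⟩
      · rw [ord_sub_inf w htrN h1]; ring
      · rw [ord_sub_inf W htr (by rw [hW']; norm_num), hW']; ring
      · rw [hδ δ _ (inv_mem hxL), W.ord_inv, hW']; norm_num
    · have hfin : ∀ W : Place F k, 0 < W.ord (xb - algebraMap F k a) →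
          (∀ c, w.ord (xN - algebraMap F Nb c) =
            w.ord (xN - algebraMap F Nb a) * (if c = a then 1 else 0)) ∧
          ∀ c, W.ord (xb - algebraMap F k c) =
            W.ord (xb - algebraMap F k a) * (if c = a then 1 else 0) := fun W hW =>
        ⟨fun c => ord_sub_fin w htrN h1 c, fun c => ord_sub_fin W htr hW c⟩
      by_cases hbr : ∃ (e : κ) (he : e ∈ B), r ⟨e, hg.1 e he⟩ = a
      · obtain ⟨e, he, rfl⟩ := hbr
        obtain ⟨W, hW, hWY⟩ := case_br hE hC hr hg D hG hu hs hsr e he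
        have hW0 : 0 < W.ord (xb - algebraMap F k (r ⟨e, hg.1 e he⟩)) := by rw [hW]; exact hℓ0
        refine ⟨W, _, _, _, s ⟨Y, (Y_unit hC hg hG).2.1⟩, h1, hW0, (hfin W hW0).1, (hfin W hW0).2,
          (hNb _).2 ⟨Y, _, hYN, rfl⟩, fun δ => ?_⟩
        have h2 : δ (s ⟨Y, (Y_unit hC hg hG).2.1⟩) ^ ℓ = s ⟨Y, (Y_unit hC hg hG).2.1⟩ ^ ℓ := by
          rw [← map_pow]
          apply hδ
          rw [Y_pow hC hg hG hsr]
          exact prod_mem fun e _ => sub_mem hxL (IntermediateField.algebraMap_mem _ _)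
        have h3 : (ℓ : ℤ) * W.ord (δ (s ⟨Y, (Y_unit hC hg hG).2.1⟩)) = ℓ * 1 := by
          rw [← W.ord_pow, h2, W.ord_pow, hWY]
        exact mul_left_cancel₀ hℓ0.ne' h3
      · push Not at hbr
        obtain ⟨⟨b, hb⟩, rfl⟩ := hr.surj a
        obtain ⟨W, hW⟩ := case_fin hE hC hr D hG hu hs hsr b hb (fun e he => by
          rcases isU_or_non V (sub_mem hb (hg.1 e he)) with h2 | h2
          · exact h2
          · exact absurd ((s_eq_iff hr hb (hg.1 e he)).2 h2).symm (hbr e he))
        have hW' : W.ord (xb - algebraMap F k (r ⟨b, hb⟩)) = 1 := hW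
        have hW0 : 0 < W.ord (xb - algebraMap F k (r ⟨b, hb⟩)) := by rw [hW']; exact one_pos
        have hmem : xb - algebraMap F k (r ⟨b, hb⟩) ∈ IntermediateField.adjoin F {xb} :=
          sub_mem hxL (IntermediateField.algebraMap_mem _ _)
        refine ⟨W, _, _, _, xb - algebraMap F k (r ⟨b, hb⟩), h1, hW0, (hfin W hW0).1, (hfin W hW0).2,
          hLN hmem, fun δ => ?_⟩
        rw [hδ δ _ hmem, hW']
  obtain ⟨W, f, m, m', t, hm, hm', hf, hf', htN, hδt⟩ := main
  obtain ⟨U, hU⟩ := hEX Nb k w.O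
  have hUm : ∀ z : Nb, (z : k) ∈ U ↔ z ∈ w.O := by
    intro z
    rw [← hU]
    rfl
  -- the traces on `F(xb)`
  have htrace : W.O.comap (algebraMap (IntermediateField.adjoin F {xb}) k) =
      U.comap (algebraMap (IntermediateField.adjoin F {xb}) k) := by
    ext a
    have e1 : a ∈ U.comap (algebraMap (IntermediateField.adjoin F {xb}) k) ↔
        algebraMap (IntermediateField.adjoin F {xb}) Nb a ∈ w.O := by
      rw [← hUm]
      rfl
    have e2 : a ∈ W.O.comap (algebraMap (IntermediateField.adjoin F {xb}) k) ↔ (a : k) ∈ W.O :=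
      Iff.rfl
    rw [e1, e2]
    by_cases ha : a = 0
    · subst ha
      rw [map_zero]
      exact iff_of_true W.O.zero_mem w.O.zero_mem
    · have hak : (a : k) ≠ 0 := fun h0 => ha (Subtype.ext h0)
      have haN : algebraMap (IntermediateField.adjoin F {xb}) Nb a ≠ 0 := (_root_.map_ne_zero _).2 ha
      rw [Place.mem_O, Place.mem_O, W.reg_iff hak, w.reg_iff haN]
      obtain ⟨p, q, hpq⟩ := hLpq a
      have hp : p ≠ 0 := by
        rintro rfl
        rw [map_zero, zero_div] at hpq
        exact hak hpq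
      have hq : q ≠ 0 := by
        rintro rfl
        rw [map_zero, div_zero] at hpq
        exact hak hpq
      have hpqN : algebraMap (IntermediateField.adjoin F {xb}) Nb a = aeval xN p / aeval xN q := by
        apply Subtype.ext
        change (a : k) = ((aeval xN p / aeval xN q : Nb) : k)
        rw [hpq, IntermediateField.coe_div, haev, haev]
      rw [hpqN, hpq]
      exact (same_sign w W htrN htr f hm hm' hf hf' hp hq).symm
  obtain ⟨δ, hδ⟩ := hCJ (IntermediateField.adjoin F {xb}) k W.O U htrace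
  have hc : ∀ c : F, ((δ : k →+* k).comp (algebraMap Nb k)) (algebraMap F Nb c) = algebraMap F k c := by
    intro c
    exact δ.commutes ⟨algebraMap F k c, IntermediateField.algebraMap_mem _ c⟩
  have ht0 : (⟨t, htN⟩ : Nb) ≠ 0 := by
    intro h0
    have h1 : t = 0 := congrArg Subtype.val h0
    have h2 := hδt δ
    rw [h1, map_zero, W.ord_zero] at h2
    exact zero_ne_one h2
  let w' : Place F Nb := comapP W ((δ : k →+* k).comp (algebraMap Nb k)) hc ⟨t, htN⟩ ht0 (hδt δ)
  have hw' : ∀ z : Nb, w'.ord z = W.ord (δ (z : k)) := fun z => rfl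
  have hww : w = w' := by
    apply Place.eq_of_le
    intro z hz0 hz
    rw [hw']
    have h1 : (z : k) ∈ U := (hUm z).2 ((w.reg_iff hz0).2 hz)
    have h2 : δ (z : k) ∈ W.O := (hδ _).1 h1
    have h3 : δ (z : k) ≠ 0 := (_root_.map_ne_zero _).2 (fun h0 => hz0 (Subtype.ext h0))
    exact (W.reg_iff h3).1 h2
  rw [hww, hw', hy, map_pow, W.ord_pow]
  push_cast
  exact dvd_mul_right _ _

end Pool.Agent.Y155.PS
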