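import Pool.Agent.Y155.PS.Resi

/-!
# Places and linear factors; normality of the residue field
-/

set_option autoImplicit false
set_option linter.all false

open Polynomial FF Pool.Agent.Y157.PS

namespace Pool.Agent.Y155.PS

/-- the residue field of a valuation ring of an algebraically closed field -/
theorem isAlgClosed_res {κ F : Type} [Field κ] [IsAlgClosed κ] [Field F] {V : ValuationSubring κ}
    {r : V →+* F} (hr : Res V r) : IsAlgClosed F := by
  apply IsAlgClosed.of_exists_root
  intro p hp hirr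
  have hl : p ∈ lifts r := by
    rw [lifts_iff_coeff_lifts]
    intro n
    exact hr.surj _
  obtain ⟨q, hq, hdeg, hm⟩ := lifts_and_natDegree_eq_and_monic hl hp
  have h1 : (q.map V.subtype).degree ≠ 0 := by
    rw [degree_map_eq_of_injective V.subtype_injective]
    intro h0
    have h2 : q.natDegree = 0 := natDegree_eq_zero_iff_degree_le_zero.2 h0.le
    rw [hdeg] at h2
    exact hirr.natDegree_pos.ne' h2
  obtain ⟨z, hz⟩ := IsAlgClosed.exists_root _ h1
  have hzV : z ∈ V := by
    have hint : IsIntegral V z := ⟨q, hm, by rw [← eval_map]; exact hz⟩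
    obtain ⟨y, hy⟩ := (IsIntegrallyClosed.isIntegral_iff (R := V) (K := κ)).1 hint
    rw [← hy]
    exact y.2
  refine ⟨r ⟨z, hzV⟩, ?_⟩
  rw [← hq, eval_map_apply]
  have h3 : q.eval ⟨z, hzV⟩ = 0 := by
    apply V.subtype_injective
    rw [← eval_map_apply, map_zero]
    exact hz
  rw [h3, map_zero]

section pl
variable {F K : Type} [Field F] [Field K] [Algebra F K] (P : Place F K)

theorem ord_multiset_prod (m : Multiset K) (hm : ∀ a ∈ m, a ≠ 0) :
    m.prod ≠ 0 ∧ P.ord m.prod = (m.map P.ord).sum := by
  induction m using Multiset.induction_on with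
  | empty => simp [P.ord_one]
  | cons a m ih =>
    obtain ⟨h1, h2⟩ := ih fun b hb => hm b (Multiset.mem_cons_of_mem hb)
    have h3 := hm a (Multiset.mem_cons_self a m)
    rw [Multiset.prod_cons, Multiset.map_cons, Multiset.sum_cons]
    exact ⟨mul_ne_zero h3 h1, by rw [P.ord_mul h3 h1, h2]⟩

theorem ord_finset_prod {ι : Type} (m : Finset ι) (f : ι → K) (hm : ∀ a ∈ m, f a ≠ 0) :
    P.ord (∏ i ∈ m, f i) = ∑ i ∈ m, P.ord (f i) := by
  classical
  induction m using Finset.induction_on with
  | empty => simp [P.ord_one]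
  | insert a m ha ih =>
    rw [Finset.prod_insert ha, Finset.sum_insert ha, P.ord_mul (hm a (Finset.mem_insert_self _ _))
      (Finset.prod_ne_zero_iff.2 fun i hi => hm i (Finset.mem_insert_of_mem hi)),
      ih fun i hi => hm i (Finset.mem_insert_of_mem hi)]

theorem sub_ne_zero_of_trans {x : K} (hx : Transcendental F x) (a : F) :
    x - algebraMap F K a ≠ 0 := by
  intro h
  rw [sub_eq_zero] at h
  exact hx (h ▸ isAlgebraic_algebraMap a)

/-- the order of a polynomial in `x` -/
theorem ord_aeval [IsAlgClosed F] {x : K} (hx : Transcendental F x) {p : F[X]} (hp : p ≠ 0) :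
    P.ord (aeval x p) = (p.roots.map (fun a => P.ord (x - algebraMap F K a))).sum := by
  have h1 : aeval x p = algebraMap F K p.leadingCoeff *
      (p.roots.map (fun a => x - algebraMap F K a)).prod := by
    conv_lhs => rw [(IsAlgClosed.splits p).eq_prod_roots]
    rw [map_mul, aeval_C, map_multiset_prod, Multiset.map_map]
    congr 2
    refine Multiset.map_congr rfl fun a _ => ?_
    simp
  have hlc : p.leadingCoeff ≠ 0 := leadingCoeff_ne_zero.2 hp
  obtain ⟨h2, h3⟩ := ord_multiset_prod P (p.roots.map (fun a => x - algebraMap F K a)) (by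
    intro a ha
    obtain ⟨b, -, rfl⟩ := Multiset.mem_map.1 ha
    exact sub_ne_zero_of_trans hx b)
  rw [h1, P.ord_mul ((_root_.map_ne_zero _).2 hlc) h2, P.ord_const hlc, zero_add, h3,
    Multiset.map_map]
  rfl

theorem ord_sub_fin {x : K} (hx : Transcendental F x) {b : F}
    (h : 0 < P.ord (x - algebraMap F K b)) (a : F) [Decidable (a = b)] :
    P.ord (x - algebraMap F K a) = P.ord (x - algebraMap F K b) * (if a = b then 1 else 0) := by
  by_cases hab : a = b
  · rw [if_pos hab, hab, mul_one]
  · rw [if_neg hab, mul_zero]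
    have h0 : b - a ≠ 0 := sub_ne_zero.2 (Ne.symm hab)
    have e : x - algebraMap F K a = algebraMap F K (b - a) + (x - algebraMap F K b) := by
      rw [map_sub]; ring
    rw [e, (P.ord_add_eq ((_root_.map_ne_zero _).2 h0) (sub_ne_zero_of_trans hx b) (by
      rw [P.ord_const h0]; exact h)).2, P.ord_const h0]

theorem ord_sub_inf {x : K} (hx : Transcendental F x) (h : P.ord x < 0) (a : F) :
    P.ord (x - algebraMap F K a) = P.ord x := by
  by_cases ha : a = 0
  · rw [ha, map_zero, sub_zero]
  · rw [sub_eq_add_neg, ← map_neg]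
    have hx0 : x ≠ 0 := by
      rintro rfl
      exact hx isAlgebraic_zero
    have ha' : -a ≠ 0 := neg_ne_zero.2 ha
    exact (P.ord_add_eq hx0 ((_root_.map_ne_zero _).2 ha') (by rw [P.ord_const ha']; exact h)).2

end pl

/-- two places with proportional values at the linear factors have the same sign on `F(x)` -/
theorem same_sign {F K K' : Type} [Field F] [IsAlgClosed F] [Field K] [Field K'] [Algebra F K]
    [Algebra F K'] (P : Place F K) (P' : Place F K') {x : K} {x' : K'} (hx : Transcendental F x)
    (hx' : Transcendental F x') (f : F → ℤ) {m m' : ℤ} (hm : 0 < m) (hm' : 0 < m')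
    (h : ∀ a, P.ord (x - algebraMap F K a) = m * f a)
    (h' : ∀ a, P'.ord (x' - algebraMap F K' a) = m' * f a) {p q : F[X]} (hp : p ≠ 0) (hq : q ≠ 0) :
    0 ≤ P.ord (aeval x p / aeval x q) ↔ 0 ≤ P'.ord (aeval x' p / aeval x' q) := by
  have n1 : ∀ {p : F[X]}, p ≠ 0 → aeval x p ≠ 0 := fun hp h0 => hp ((transcendental_iff.1 hx) _ h0)
  have n2 : ∀ {p : F[X]}, p ≠ 0 → aeval x' p ≠ 0 := fun hp h0 => hp ((transcendental_iff.1 hx') _ h0)
  have e1 : ∀ {p : F[X]}, p ≠ 0 → P.ord (aeval x p) = m * (p.roots.map f).sum := by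
    intro p hp
    rw [ord_aeval P hx hp, ← Multiset.sum_map_mul_left]
    congr 1
    exact Multiset.map_congr rfl fun a _ => h a
  have e2 : ∀ {p : F[X]}, p ≠ 0 → P'.ord (aeval x' p) = m' * (p.roots.map f).sum := by
    intro p hp
    rw [ord_aeval P' hx' hp, ← Multiset.sum_map_mul_left]
    congr 1
    exact Multiset.map_congr rfl fun a _ => h' a
  rw [P.ord_div (n1 hp) (n1 hq), P'.ord_div (n2 hp) (n2 hq), e1 hp, e1 hq, e2 hp, e2 hq,
    ← mul_sub, ← mul_sub, mul_nonneg_iff_of_pos_left hm, mul_nonneg_iff_of_pos_left hm']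

section cov
variable {κ R M : Type} [Field κ] [Field R] [Field M] [Algebra κ R] [Algebra R M] [Algebra κ M]
  [IsScalarTower κ R M] {x : R} {V : ValuationSubring κ} {O : ValuationSubring M}
  {F : Type} [Field F] {r : V →+* F} {k : Type} [Field k] [Algebra F k] {s : O →+* k} {xb : k}

/-- the residue field is normal over the residue field of `R` -/
theorem normal_res [IsGalois R M] (hx : RatF κ x) (hG : Gauss V (algebraMap R M x) O)
    (hu : ∀ O' : ValuationSubring M, Gauss V (algebraMap R M x) O' → O' = O) (hs : Res O s)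
    (hsr : ∀ (c : κ) (hc : c ∈ V) (hc' : algebraMap κ M c ∈ O),
      s ⟨_, hc'⟩ = algebraMap F k (r ⟨c, hc⟩))
    (hxb : ∀ hx : algebraMap R M x ∈ O, s ⟨_, hx⟩ = xb) :
    Normal (IntermediateField.adjoin F {xb}) k := by
  rw [normal_iff]
  intro z
  obtain ⟨⟨y, hy⟩, rfl⟩ := hs.surj z
  have hyi : IsIntegral R y := Algebra.IsIntegral.isIntegral y
  set P := minpoly R y with hP
  have hPm : P.Monic := minpoly.monic hyi
  have hsp : ((P.map (algebraMap R M))).Splits := Normal.splits inferInstance y
  have hroot : ∀ a ∈ (P.map (algebraMap R M)).roots, a ∈ O := by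
    intro a ha
    have h1 : IsConjRoot R a y := by
      rw [IsConjRoot]
      have h2 : aeval a P = 0 := by
        rw [mem_roots (hPm.map _).ne_zero, IsRoot, eval_map] at ha
        exact ha
      exact (minpoly.eq_of_irreducible_of_monic (minpoly.irreducible hyi) h2 hPm).symm
    obtain ⟨σ, hσ⟩ := isConjRoot_iff_exists_algEquiv.1 h1
    rw [← hσ]
    exact (stab_O hG hu σ y).2 hy
  let ro : Multiset O := (P.map (algebraMap R M)).roots.pmap (fun a ha => ⟨a, ha⟩) hroot
  let Q : O[X] := (ro.map (fun a => X - C a)).prod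
  have hQM : Q.map O.subtype = P.map (algebraMap R M) := by
    conv_rhs => rw [hsp.eq_prod_roots]
    rw [(hPm.map _).leadingCoeff, C_1, one_mul, Polynomial.map_multiset_prod, Multiset.map_map]
    congr 1
    rw [Multiset.map_pmap]
    have : (P.map (algebraMap R M)).roots.map (fun a => X - C a) =
      (P.map (algebraMap R M)).roots.pmap (fun a (_ : a ∈ O) => X - C a) hroot := by
      rw [Multiset.pmap_eq_map]
    rw [this]
    apply Multiset.pmap_congr
    intro a _ h1 h2
    simp
  have hQm : Q.Monic := monic_multiset_prod_of_monic _ _ fun a _ => monic_X_sub_C a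
  have hQL : Q.map s ∈ lifts (algebraMap (IntermediateField.adjoin F {xb}) k) := by
    rw [lifts_iff_coeff_lifts]
    intro n
    have h1 : O.subtype (Q.coeff n) = algebraMap R M (P.coeff n) := by
      rw [← coeff_map, hQM, coeff_map]
    have h2 : algebraMap R M (P.coeff n) ∈ O := by
      rw [← h1]; exact (Q.coeff n).2
    have h3 := R_res hx hG hs hsr hxb _ h2
    refine ⟨⟨_, h3⟩, ?_⟩
    rw [coeff_map]
    change s ⟨_, h2⟩ = _
    congr 1
    exact Subtype.ext h1.symm
  obtain ⟨q, hq, -, hqm⟩ := lifts_and_natDegree_eq_and_monic hQL (hQm.map s)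
  have hQy : Q.eval ⟨y, hy⟩ = 0 := by
    apply O.subtype_injective
    rw [← eval_map_apply, map_zero, hQM, eval_map]
    exact minpoly.aeval R y
  have hq0 : aeval (s ⟨y, hy⟩) q = 0 := by
    rw [aeval_def, ← eval_map, hq, eval_map_apply, hQy, map_zero]
  refine ⟨⟨q, hqm, hq0⟩, ?_⟩
  have hspl : (Q.map s).Splits := by
    have : Q.map s = (ro.map (fun a => X - C (s a))).prod := by
      rw [Polynomial.map_multiset_prod, Multiset.map_map]
      congr 1
      refine Multiset.map_congr rfl fun a _ => ?_
      simp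
    rw [this]
    apply Splits.multisetProd
    intro p hp
    obtain ⟨a, -, rfl⟩ := Multiset.mem_map.1 hp
    exact Splits.X_sub_C _
  refine hspl.of_dvd (hQm.map s).ne_zero ?_
  rw [← hq]
  exact Polynomial.map_dvd _ (minpoly.dvd _ _ hq0)

end cov

end Pool.Agent.Y155.PS
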