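import Pool.Agent.Y155.PS.G4a

/-!
# Places of the residue field from embeddings in a disc
-/

set_option autoImplicit false
set_option linter.all false

open Polynomial FF Pool.Agent.Y157.PS

namespace Pool.Agent.Y155.PS

theorem lsC (F : Type) [Field F] (c : F) : algebraMap F (LaurentSeries F) c = HahnSeries.C c := by
  rw [HahnSeries.algebraMap_apply']
  change HahnSeries.ofPowerSeries ℤ F (PowerSeries.C c) = _
  exact HahnSeries.ofPowerSeries_C c

/-- the order of Laurent series -/
noncomputable def lsP (F : Type) [Field F] : Place F (LaurentSeries F) where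
  ord y := HahnSeries.order y
  ord_zero := HahnSeries.order_zero
  ord_mul hf hg := HahnSeries.order_mul hf hg
  ord_add _ _ h := HahnSeries.min_order_le_order_add h
  ord_const {c} _ := by
    rw [lsC]
    exact HahnSeries.order_C
  surj := ⟨HahnSeries.single 1 1, HahnSeries.single_ne_zero one_ne_zero,
    HahnSeries.order_single one_ne_zero⟩

theorem lsP_single (F : Type) [Field F] : (lsP F).ord (HahnSeries.single 1 1) = 1 :=
  HahnSeries.order_single one_ne_zero

theorem single_ne (F : Type) [Field F] : (HahnSeries.single (1 : ℤ) (1 : F) : LaurentSeries F) ≠ 0 :=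
  HahnSeries.single_ne_zero one_ne_zero

/-- the place induced by an embedding -/
noncomputable def comapP {F K E : Type} [Field F] [Field K] [Field E] [Algebra F K] [Algebra F E]
    (P : Place F E) (j : K →+* E) (hj : ∀ c : F, j (algebraMap F K c) = algebraMap F E c)
    (t : K) (ht0 : t ≠ 0) (ht : P.ord (j t) = 1) : Place F K where
  ord z := P.ord (j z)
  ord_zero := by rw [map_zero, P.ord_zero]
  ord_mul hf hg := by
    rw [map_mul]
    exact P.ord_mul ((_root_.map_ne_zero _).2 hf) ((_root_.map_ne_zero _).2 hg)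
  ord_add hf hg h := by
    rw [map_add]
    exact P.ord_add ((_root_.map_ne_zero _).2 hf) ((_root_.map_ne_zero _).2 hg) (by
      rw [← map_add]; exact (_root_.map_ne_zero _).2 h)
  ord_const {c} hc := by rw [hj, P.ord_const hc]
  surj := ⟨t, ht0, ht⟩

section disc
variable {ℓ : ℕ} [Fact ℓ.Prime] {κ R M : Type} [Field κ] [IsAlgClosed κ] [CharZero κ] [Field R]
  [Field M] [Algebra κ R] [Algebra R M] [Algebra κ M] [IsScalarTower κ R M] {x : R}
  {B : Finset κ} {Y : M} {F : Type} [Field F] {V : ValuationSubring κ} {r : V →+* F}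
  {O : ValuationSubring M} {k : Type} [Field k] [Algebra F k] {s : O →+* k}

/-- an embedding of `M` in the functions on the disc induces an embedding of the residue field in
the field of Laurent series -/
theorem disc_map (hE : S_EMB) (hC : Cov ℓ κ R M x B Y) (hr : Res V r) (D : Disc ℓ V r)
    (hG : Gauss V (algebraMap R M x) O)
    (hu : ∀ O' : ValuationSubring M, Gauss V (algebraMap R M x) O' → O' = O) (hs : Res O s)
    (hsr : ∀ (c : κ) (hc : c ∈ V) (hc' : algebraMap κ M c ∈ O),
      s ⟨_, hc'⟩ = algebraMap F k (r ⟨c, hc⟩))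
    (X : D.E) (hX : X ∈ D.O) (htr : Transcendental κ X)
    (hdiv : ∀ P ∈ D.pts, (ℓ : ℤ) ∣ P.ord (∏ e ∈ B, (X - algebraMap κ D.E e)))
    (htrF : Transcendental F (D.ρ ⟨X, hX⟩)) :
    ∃ jb : k →+* LaurentSeries F,
      (∀ c, jb (algebraMap F k c) = algebraMap F (LaurentSeries F) c) ∧
      jb (s ⟨_, x_mem hG⟩) = D.ρ ⟨X, hX⟩ := by
  obtain ⟨j, hj⟩ := hE ℓ κ R M x B Y hC D.E D.pts D.root X htr hdiv
  have jc : ∀ c : κ, j (algebraMap κ M c) = algebraMap κ D.E c := fun c => j.commutes c
  have hconst : ∀ c : κ, algebraMap κ D.E c ∈ D.O ↔ c ∈ V := by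
    intro c
    constructor
    · intro h
      by_contra hcV
      have hc0 : c ≠ 0 := by
        rintro rfl
        exact hcV (zero_mem V)
      have h1 : c⁻¹ ∈ V.nonunits := V.inv_mem_nonunits_iff.2 (Or.inr hcV)
      have h2 : c⁻¹ ∈ V := V.nonunits_subset h1
      have h3 : D.ρ ⟨algebraMap κ D.E c⁻¹, D.memV _ h2⟩ = 0 := by
        rw [D.ρV _ h2, (hr.ker ⟨_, h2⟩).2 h1, map_zero]
      have h4 := (D.ker _).1 h3
      change algebraMap κ D.E c⁻¹ ∈ D.O.nonunits at h4
      rw [map_inv₀, D.O.inv_mem_nonunits_iff] at h4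
      rcases h4 with h4 | h4
      · exact hc0 ((_root_.map_eq_zero _).1 h4)
      · exact h4 h
    · exact D.memV c
  have hcnon : ∀ c : V, D.ρ ⟨algebraMap κ D.E c, D.memV _ c.2⟩ = HahnSeries.C (r c) := fun c =>
    D.ρV c.1 c.2
  -- the Gauss valuation
  have hGauss : Gauss V (algebraMap R M x) (D.O.comap j.toRingHom) := by
    refine ⟨fun c => ?_, fun p hp hp1 => ?_⟩
    · rw [← hconst c, ← jc]
      rfl
    · obtain ⟨n, hn⟩ := hp1
      have hlift : p ∈ lifts (V.subtype) := by
        rw [lifts_iff_coeff_lifts]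
        intro m
        exact ⟨⟨p.coeff m, hp m⟩, rfl⟩
      obtain ⟨q, hq⟩ := (mem_lifts p).1 hlift
      let ψ : V →+* D.O := ((algebraMap κ D.E).comp V.subtype).codRestrict D.O.toSubring
        (fun c => D.memV c.1 c.2)
      have h1 : j (aeval (algebraMap R M x) p) = D.O.subtype (q.eval₂ ψ ⟨X, hX⟩) := by
        have h2 : j (aeval (algebraMap R M x) p) = aeval X p := by
          rw [← hj]
          exact (aeval_algHom_apply j (algebraMap R M x) p).symm
        rw [h2, aeval_def, ← hq, eval₂_map, hom_eval₂]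
        rfl
      have h4 : D.ρ (q.eval₂ ψ ⟨X, hX⟩) ≠ 0 := by
        rw [hom_eval₂]
        have h5 : D.ρ.comp ψ = (algebraMap F (LaurentSeries F)).comp r := by
          ext1 c
          rw [RingHom.comp_apply (algebraMap F (LaurentSeries F)), lsC]
          exact hcnon c
        rw [h5, ← eval₂_map, ← aeval_def]
        intro h0
        have h6 := (transcendental_iff.1 htrF) _ h0
        have h9 : r (q.coeff n) = 0 := by
          rw [← coeff_map, h6, coeff_zero]
        have h10 := (hr.ker _).1 h9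
        have h11 : ((q.coeff n : V) : κ) = p.coeff n := by
          rw [← hq, coeff_map]
          rfl
        rw [h11] at h10
        exact not_isU_of_non V h10 hn
      have h6 : IsU D.O (j (aeval (algebraMap R M x) p)) := by
        rw [h1]
        rcases isU_or_non D.O (q.eval₂ ψ ⟨X, hX⟩ : D.O).2 with h | h
        · exact h
        · exact absurd ((D.ker _).2 h) h4
      refine ⟨?_, ?_, ?_⟩
      · intro h
        rw [h, map_zero] at h6
        exact h6.1 rfl
      · exact h6.2.1
      · change j _ ∈ D.O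
        rw [map_inv₀]
        exact h6.2.2
  have hO := hu _ hGauss
  have hmem : ∀ z : M, z ∈ O ↔ j z ∈ D.O := by
    intro z
    rw [← hO]
    rfl
  let ρj : O →+* LaurentSeries F := D.ρ.comp
    ((j.toRingHom.comp O.subtype).codRestrict D.O.toSubring (fun z => (hmem _).1 z.2))
  have hker : RingHom.ker s ≤ RingHom.ker ρj := by
    intro z hz
    rw [RingHom.mem_ker] at hz ⊢
    have h1 := (hs.ker z).1 hz
    refine (D.ker _).2 ?_
    change j (z : M) ∈ D.O.nonunits
    rw [D.O.mem_nonunits_iff_or, ← map_inv₀, ← hmem]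
    rcases O.mem_nonunits_iff_or.1 h1 with h2 | h2
    · left
      rw [h2, map_zero]
    · right
      exact h2
  have hjb : ∀ z : O, (RingHom.liftOfSurjective s hs.surj) ⟨ρj, hker⟩ (s z) = ρj z := fun z =>
    RingHom.liftOfRightInverse_comp_apply s _ _ ⟨ρj, hker⟩ z
  refine ⟨(RingHom.liftOfSurjective s hs.surj) ⟨ρj, hker⟩, fun c => ?_, ?_⟩
  · obtain ⟨⟨d, hd⟩, rfl⟩ := hr.surj c
    rw [← hsr d hd ((hG.1 d).2 hd), hjb, lsC]
    change D.ρ ⟨j (algebraMap κ M d), _⟩ = HahnSeries.C _
    rw [← D.ρV d hd]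
    congr 1
    exact Subtype.ext (jc d)
  · rw [hjb]
    change D.ρ ⟨j (algebraMap R M x), _⟩ = _
    congr 1
    exact Subtype.ext hj

end disc

end Pool.Agent.Y155.PS
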