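import Pool.Agent.Y155.PS.G4b

/-!
# The places of the residue field: the three cases
-/

set_option autoImplicit false
set_option linter.all false

open Polynomial FF Pool.Agent.Y157.PS

namespace Pool.Agent.Y155.PS

theorem trans_of_ord {F K : Type} [Field F] [Field K] [Algebra F K] (P : Place F K) {y : K} {c : F}
    (h : P.ord (y - algebraMap F K c) ≠ 0) : Transcendental F y := by
  intro h1
  exact P.transcendental_of_ord_ne h (h1.sub (isAlgebraic_algebraMap c))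

section disc
variable {ℓ : ℕ} [Fact ℓ.Prime] {κ R M : Type} [Field κ] [IsAlgClosed κ] [CharZero κ] [Field R]
  [Field M] [Algebra κ R] [Algebra R M] [Algebra κ M] [IsScalarTower κ R M] {x : R}
  {B : Finset κ} {Y : M} {F : Type} [Field F] {V : ValuationSubring κ} {r : V →+* F}
  {O : ValuationSubring M} {k : Type} [Field k] [Algebra F k] {s : O →+* k}

theorem u_ne (D : Disc ℓ V r) : D.u ≠ 0 := by
  intro h
  have := D.P0u
  rw [h, D.P0.ord_zero] at this
  omega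

/-- the case of a residue disc without branch point -/
theorem case_fin (hE : S_EMB) (hC : Cov ℓ κ R M x B Y) (hr : Res V r) (D : Disc ℓ V r)
    (hG : Gauss V (algebraMap R M x) O)
    (hu : ∀ O' : ValuationSubring M, Gauss V (algebraMap R M x) O' → O' = O) (hs : Res O s)
    (hsr : ∀ (c : κ) (hc : c ∈ V) (hc' : algebraMap κ M c ∈ O),
      s ⟨_, hc'⟩ = algebraMap F k (r ⟨c, hc⟩)) (b : κ) (hb : b ∈ V)
    (hbe : ∀ e ∈ B, IsU V (b - e)) :
    ∃ W : Place F k, W.ord (s ⟨_, x_mem hG⟩ - algebraMap F k (r ⟨b, hb⟩)) = 1 := by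
  set X : D.E := algebraMap κ D.E b + D.u with hXd
  have hX : X ∈ D.O := add_mem (D.memV b hb) D.memu
  have hXb : X - algebraMap κ D.E b = D.u := by rw [hXd]; ring
  have htr : Transcendental κ X := trans_of_ord D.P0 (c := b) (by
    rw [hXb, D.P0u]; exact one_ne_zero)
  have hne : ∀ c : κ, X - algebraMap κ D.E c ≠ 0 := sub_ne_zero_of_trans htr
  have hdiv : ∀ P ∈ D.pts, (ℓ : ℤ) ∣ P.ord (∏ e ∈ B, (X - algebraMap κ D.E e)) := by
    intro P hP
    rw [ord_finset_prod P B _ fun e _ => hne e, Finset.sum_eq_zero]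
    · exact dvd_zero _
    · intro e he
      have e1 : X - algebraMap κ D.E e = algebraMap κ D.E (b - e) + algebraMap κ D.E 1 * D.u ^ 1 := by
        rw [hXd, map_sub, map_one]; ring
      rw [e1]
      exact D.unit P hP _ _ (hbe e he) (one_mem V) 1 le_rfl
  have hρ : D.ρ ⟨X, hX⟩ = algebraMap F (LaurentSeries F) (r ⟨b, hb⟩) + HahnSeries.single 1 1 := by
    have e1 : (⟨X, hX⟩ : D.O) = ⟨_, D.memV b hb⟩ + ⟨D.u, D.memu⟩ := Subtype.ext rfl
    rw [e1, map_add, D.ρV b hb, D.ρu, lsC]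
  have htrF : Transcendental F (D.ρ ⟨X, hX⟩) := trans_of_ord (lsP F) (c := r ⟨b, hb⟩) (by
    rw [hρ, add_sub_cancel_left, lsP_single]; exact one_ne_zero)
  obtain ⟨jb, h1, h2⟩ := disc_map hE hC hr D hG hu hs hsr X hX htr hdiv htrF
  have h3 : jb (s ⟨_, x_mem hG⟩ - algebraMap F k (r ⟨b, hb⟩)) = HahnSeries.single 1 1 := by
    rw [map_sub, h1, h2, hρ, add_sub_cancel_left]
  have h4 : (lsP F).ord (jb (s ⟨_, x_mem hG⟩ - algebraMap F k (r ⟨b, hb⟩))) = 1 := by
    rw [h3, lsP_single]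
  have h5 : s ⟨_, x_mem hG⟩ - algebraMap F k (r ⟨b, hb⟩) ≠ 0 := by
    intro h
    rw [h, map_zero, (lsP F).ord_zero] at h4
    exact zero_ne_one h4
  exact ⟨comapP (lsP F) jb h1 _ h5 h4, h4⟩

/-- the case of the residue disc at infinity -/
theorem case_inf (hE : S_EMB) (hC : Cov ℓ κ R M x B Y) (hr : Res V r) (hg : Good V B)
    (D : Disc ℓ V r) (hG : Gauss V (algebraMap R M x) O)
    (hu : ∀ O' : ValuationSubring M, Gauss V (algebraMap R M x) O' → O' = O) (hs : Res O s)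
    (hsr : ∀ (c : κ) (hc : c ∈ V) (hc' : algebraMap κ M c ∈ O),
      s ⟨_, hc'⟩ = algebraMap F k (r ⟨c, hc⟩)) :
    ∃ W : Place F k, W.ord (s ⟨_, x_mem hG⟩) = -1 := by
  have hu0 := u_ne D
  have huU : IsU D.O D.u := by
    rcases isU_or_non D.O D.memu with h | h
    · exact h
    · have := (D.ker ⟨D.u, D.memu⟩).2 h
      rw [D.ρu] at this
      exact absurd this (single_ne F)
  have hX : D.u⁻¹ ∈ D.O := huU.2.2
  have htr : Transcendental κ D.u⁻¹ := D.P0.transcendental_of_ord_ne (by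
    rw [D.P0.ord_inv, D.P0u]; norm_num)
  have hne : ∀ c : κ, D.u⁻¹ - algebraMap κ D.E c ≠ 0 := sub_ne_zero_of_trans htr
  have hdiv : ∀ P ∈ D.pts, (ℓ : ℤ) ∣ P.ord (∏ e ∈ B, (D.u⁻¹ - algebraMap κ D.E e)) := by
    intro P hP
    rw [ord_finset_prod P B _ fun e _ => hne e]
    have h1 : ∀ e ∈ B, P.ord (D.u⁻¹ - algebraMap κ D.E e) = -P.ord D.u := by
      intro e he
      have e1 : D.u⁻¹ - algebraMap κ D.E e =
          D.u⁻¹ * (algebraMap κ D.E 1 + algebraMap κ D.E (-e) * D.u ^ 1) := by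
        rw [map_one, map_neg]; field_simp; ring
      have e2 : algebraMap κ D.E 1 + algebraMap κ D.E (-e) * D.u ^ 1 ≠ 0 := by
        intro h
        rw [h, mul_zero] at e1
        exact hne e e1
      rw [e1, P.ord_mul (inv_ne_zero hu0) e2, P.ord_inv,
        D.unit P hP 1 (-e) ⟨one_ne_zero, one_mem _, by rw [inv_one]; exact one_mem _⟩
          (neg_mem (hg.1 e he)) 1 le_rfl, add_zero]
    rw [Finset.sum_congr rfl h1, Finset.sum_const, nsmul_eq_mul]
    exact dvd_mul_of_dvd_left (Int.natCast_dvd_natCast.2 hC.dvd) _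
  have hρ : D.ρ ⟨D.u⁻¹, hX⟩ = (HahnSeries.single 1 1)⁻¹ := by
    apply eq_inv_of_mul_eq_one_left
    rw [← D.ρu, ← map_mul, ← map_one D.ρ]
    congr 1
    exact Subtype.ext (inv_mul_cancel₀ hu0)
  have hord : (lsP F).ord (D.ρ ⟨D.u⁻¹, hX⟩) = -1 := by
    rw [hρ, (lsP F).ord_inv, lsP_single]
  have htrF : Transcendental F (D.ρ ⟨D.u⁻¹, hX⟩) := (lsP F).transcendental_of_ord_ne (by
    rw [hord]; norm_num)
  obtain ⟨jb, h1, h2⟩ := disc_map hE hC hr D hG hu hs hsr D.u⁻¹ hX htr hdiv htrF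
  have h4 : (lsP F).ord (jb (s ⟨_, x_mem hG⟩)⁻¹) = 1 := by
    rw [map_inv₀, (lsP F).ord_inv, h2, hord]; norm_num
  have h5 : (s ⟨_, x_mem hG⟩)⁻¹ ≠ 0 := by
    intro h
    rw [h, map_zero, (lsP F).ord_zero] at h4
    exact zero_ne_one h4
  refine ⟨comapP (lsP F) jb h1 _ h5 h4, ?_⟩
  change (lsP F).ord (jb (s ⟨_, x_mem hG⟩)) = -1
  rw [h2, hord]

theorem Y_unit (hC : Cov ℓ κ R M x B Y) (hg : Good V B) (hG : Gauss V (algebraMap R M x) O) :
    IsU O Y := by
  have hℓ : ℓ ≠ 0 := (Fact.out : ℓ.Prime).ne_zero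
  have h1 : ∀ e ∈ B, O.valuation (algebraMap R M x - algebraMap κ M e) = 1 := by
    intro e he
    have h2 := hG.2 (X - C e) (fun n => by
      rw [coeff_sub, coeff_X, coeff_C]
      refine sub_mem ?_ ?_
      · split_ifs
        · exact one_mem _
        · exact zero_mem _
      · split_ifs
        · exact hg.1 e he
        · exact zero_mem _) ⟨1, by
          rw [coeff_sub, coeff_X_one, coeff_C, if_neg one_ne_zero, sub_zero]
          exact ⟨one_ne_zero, one_mem _, by rw [inv_one]; exact one_mem _⟩⟩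
    rw [map_sub, aeval_X, aeval_C] at h2
    exact (isU_iff O).1 h2
  rw [isU_iff]
  have h2 : O.valuation Y ^ ℓ = 1 := by
    rw [← map_pow, hC.eqn, map_prod]
    exact Finset.prod_eq_one h1
  exact pow_left_injective hℓ (h2.trans (one_pow ℓ).symm)

theorem Y_pow (hC : Cov ℓ κ R M x B Y) (hg : Good V B) (hG : Gauss V (algebraMap R M x) O)
    (hsr : ∀ (c : κ) (hc : c ∈ V) (hc' : algebraMap κ M c ∈ O),
      s ⟨_, hc'⟩ = algebraMap F k (r ⟨c, hc⟩)) :
    s ⟨Y, (Y_unit hC hg hG).2.1⟩ ^ ℓ =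
      ∏ e ∈ B.attach, (s ⟨_, x_mem hG⟩ - algebraMap F k (r ⟨e, hg.1 e e.2⟩)) := by
  rw [← map_pow]
  have h1 : (⟨Y, (Y_unit hC hg hG).2.1⟩ : O) ^ ℓ = ∏ e ∈ B.attach,
      (⟨_, x_mem hG⟩ - ⟨algebraMap κ M e, (hG.1 _).2 (hg.1 e e.2)⟩) := by
    apply O.subtype_injective
    rw [map_pow, map_prod]
    change Y ^ ℓ = _
    rw [hC.eqn, ← Finset.prod_attach]
    rfl
  rw [h1, map_prod]
  refine Finset.prod_congr rfl fun e _ => ?_
  rw [map_sub, hsr _ (hg.1 e e.2)]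

/-- the case of a residue disc with a branch point -/
theorem case_br (hE : S_EMB) (hC : Cov ℓ κ R M x B Y) (hr : Res V r) (hg : Good V B)
    (D : Disc ℓ V r) (hG : Gauss V (algebraMap R M x) O)
    (hu : ∀ O' : ValuationSubring M, Gauss V (algebraMap R M x) O' → O' = O) (hs : Res O s)
    (hsr : ∀ (c : κ) (hc : c ∈ V) (hc' : algebraMap κ M c ∈ O),
      s ⟨_, hc'⟩ = algebraMap F k (r ⟨c, hc⟩)) (b : κ) (hb : b ∈ B) :
    ∃ W : Place F k, W.ord (s ⟨_, x_mem hG⟩ - algebraMap F k (r ⟨b, hg.1 b hb⟩)) = ℓ ∧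
      W.ord (s ⟨Y, (Y_unit hC hg hG).2.1⟩) = 1 := by
  classical
  have hℓ : ℓ.Prime := Fact.out
  have hℓ0 : (ℓ : ℤ) ≠ 0 := by exact_mod_cast hℓ.ne_zero
  have hbV := hg.1 b hb
  set X : D.E := algebraMap κ D.E b + D.u ^ ℓ with hXd
  have hX : X ∈ D.O := add_mem (D.memV b hbV) (pow_mem D.memu ℓ)
  have hXb : X - algebraMap κ D.E b = D.u ^ ℓ := by rw [hXd]; ring
  have htr : Transcendental κ X := trans_of_ord D.P0 (c := b) (by
    rw [hXb, D.P0.ord_pow, D.P0u, mul_one]; exact hℓ0)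
  have hne : ∀ c : κ, X - algebraMap κ D.E c ≠ 0 := sub_ne_zero_of_trans htr
  have hdiv : ∀ P ∈ D.pts, (ℓ : ℤ) ∣ P.ord (∏ e ∈ B, (X - algebraMap κ D.E e)) := by
    intro P hP
    rw [ord_finset_prod P B _ fun e _ => hne e]
    refine Finset.dvd_sum fun e he => ?_
    by_cases heb : e = b
    · rw [heb, hXb, P.ord_pow]
      exact dvd_mul_right _ _
    · have e1 : X - algebraMap κ D.E e = algebraMap κ D.E (b - e) + algebraMap κ D.E 1 * D.u ^ ℓ := by
        rw [hXd, map_sub, map_one]; ring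
      rw [e1, D.unit P hP _ _ (hg.2 b hb e he (Ne.symm heb)) (one_mem V) ℓ hℓ.pos]
      exact dvd_zero _
  have hρ : D.ρ ⟨X, hX⟩ = algebraMap F (LaurentSeries F) (r ⟨b, hbV⟩) +
      HahnSeries.single 1 1 ^ ℓ := by
    have e1 : (⟨X, hX⟩ : D.O) = ⟨_, D.memV b hbV⟩ + ⟨D.u, D.memu⟩ ^ ℓ := Subtype.ext rfl
    rw [e1, map_add, map_pow, D.ρV b hbV, D.ρu, lsC]
  have hord : (lsP F).ord (D.ρ ⟨X, hX⟩ - algebraMap F _ (r ⟨b, hbV⟩)) = ℓ := by
    rw [hρ, add_sub_cancel_left, (lsP F).ord_pow, lsP_single, mul_one]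
  have htrF : Transcendental F (D.ρ ⟨X, hX⟩) := trans_of_ord (lsP F) (c := r ⟨b, hbV⟩) (by
    rw [hord]; exact hℓ0)
  obtain ⟨jb, h1, h2⟩ := disc_map hE hC hr D hG hu hs hsr X hX htr hdiv htrF
  have h3 : (lsP F).ord (jb (s ⟨Y, (Y_unit hC hg hG).2.1⟩)) = 1 := by
    have h4 : (lsP F).ord (jb (s ⟨Y, (Y_unit hC hg hG).2.1⟩) ^ ℓ) = ℓ := by
      rw [← map_pow, Y_pow hC hg hG hsr, map_prod, ord_finset_prod (lsP F)]
      · rw [Finset.sum_eq_single (⟨b, hb⟩ : {e // e ∈ B})]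
        · rw [map_sub, h1, h2]
          exact hord
        · intro e _ he
          have h5 : r ⟨e, hg.1 e e.2⟩ ≠ r ⟨b, hbV⟩ := by
            intro h
            have h6 := (s_eq_iff hr (hg.1 e e.2) hbV).1 h
            exact not_isU_of_non V h6 (hg.2 e e.2 b hb (fun h7 => he (Subtype.ext h7)))
          rw [map_sub, h1, h2, ord_sub_fin (lsP F) htrF (b := r ⟨b, hbV⟩) (by
            rw [hord]; exact_mod_cast hℓ.pos) (r ⟨e, hg.1 e e.2⟩), if_neg h5, mul_zero]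
        · intro h
          exact absurd (Finset.mem_attach _ _) h
      · intro e _
        rw [map_sub, h1, h2]
        exact sub_ne_zero_of_trans htrF _
    rw [(lsP F).ord_pow] at h4
    have h5 : (ℓ : ℤ) * (lsP F).ord (jb (s ⟨Y, (Y_unit hC hg hG).2.1⟩)) = ℓ * 1 := by
      rw [h4, mul_one]
    exact mul_left_cancel₀ hℓ0 h5
  have h5 : s ⟨Y, (Y_unit hC hg hG).2.1⟩ ≠ 0 := by
    intro h
    rw [h, map_zero, (lsP F).ord_zero] at h3
    exact zero_ne_one h3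
  refine ⟨comapP (lsP F) jb h1 _ h5 h3, ?_, h3⟩
  change (lsP F).ord (jb _) = ℓ
  rw [map_sub, h1, h2, hord]

end disc

end Pool.Agent.Y155.PS
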