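import Pool.Agent.Y155.PS.G3

/-!
# Residue fields of prolongations of the Gauss valuation
-/

set_option autoImplicit false
set_option linter.all false

open Polynomial FF Pool.Agent.Y157.PS

namespace Pool.Agent.Y155.PS

section res
variable {M k : Type} [Field M] [Field k] {O : ValuationSubring M} {s : O →+* k} (hs : Res O s)
include hs

theorem s_eq_iff {a b : M} (ha : a ∈ O) (hb : b ∈ O) :
    s ⟨a, ha⟩ = s ⟨b, hb⟩ ↔ a - b ∈ O.nonunits := by
  rw [← sub_eq_zero, ← map_sub]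
  exact hs.ker _

theorem s_inv {a : M} (ha : a ∈ O) (hu : IsU O a) : s ⟨a⁻¹, hu.2.2⟩ = (s ⟨a, ha⟩)⁻¹ := by
  apply eq_inv_of_mul_eq_one_right
  rw [← map_mul, ← map_one s]
  congr 1
  exact Subtype.ext (mul_inv_cancel₀ hu.1)

theorem s_ne_zero {a : M} (ha : a ∈ O) (hu : IsU O a) : s ⟨a, ha⟩ ≠ 0 := by
  intro h
  exact not_isU_of_non O ((hs.ker _).1 h) hu

theorem isU_of_s {a : M} (ha : a ∈ O) (h : s ⟨a, ha⟩ ≠ 0) : IsU O a := by
  rcases isU_or_non O ha with h1 | h1
  · exact h1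
  · exact absurd ((hs.ker ⟨a, ha⟩).2 h1) h

omit hs in
theorem non_map (γ : M ≃+* M) (hγ : ∀ z, γ z ∈ O ↔ z ∈ O) (z : M) :
    γ z ∈ O.nonunits ↔ z ∈ O.nonunits := by
  rw [O.mem_nonunits_iff_or, O.mem_nonunits_iff_or, ← map_inv₀, hγ]
  simp

/-- the automorphism of the residue field induced by an automorphism which stabilises `O` -/
theorem exists_red (γ : M ≃+* M) (hγ : ∀ z, γ z ∈ O ↔ z ∈ O) :
    ∃ τ : k ≃+* k, ∀ (z : M) (hz : z ∈ O), τ (s ⟨z, hz⟩) = s ⟨γ z, (hγ z).2 hz⟩ := by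
  have hγ' : ∀ z, γ.symm z ∈ O ↔ z ∈ O := fun z => by
    rw [← hγ, γ.apply_symm_apply]
  have main : ∀ g : M ≃+* M, ∀ hg : (∀ z, g z ∈ O ↔ z ∈ O),
      ∃ τ : k →+* k, ∀ (z : M) (hz : z ∈ O), τ (s ⟨z, hz⟩) = s ⟨g z, (hg z).2 hz⟩ := by
    intro g hg
    let gO : O →+* O := ((g : M →+* M).comp O.subtype).codRestrict O.toSubring
      (fun z => (hg _).2 z.2)
    have hker : RingHom.ker s ≤ RingHom.ker (s.comp gO) := by
      intro z hz
      rw [RingHom.mem_ker] at hz ⊢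
      rw [RingHom.comp_apply, hs.ker]
      exact (non_map g hg _).2 ((hs.ker _).1 hz)
    let f := (RingHom.liftOfSurjective s hs.surj) ⟨s.comp gO, hker⟩
    refine ⟨f, fun z hz => ?_⟩
    exact RingHom.liftOfRightInverse_comp_apply s _ _ ⟨s.comp gO, hker⟩ ⟨z, hz⟩
  obtain ⟨f, hf⟩ := main γ hγ
  obtain ⟨f', hf'⟩ := main γ.symm hγ'
  have e1 : ∀ y, f (f' y) = y := by
    intro y
    obtain ⟨⟨z, hz⟩, rfl⟩ := hs.surj y
    rw [hf', hf]
    congr 1
    exact Subtype.ext (γ.apply_symm_apply z)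
  have e2 : ∀ y, f' (f y) = y := by
    intro y
    obtain ⟨⟨z, hz⟩, rfl⟩ := hs.surj y
    rw [hf, hf']
    congr 1
    exact Subtype.ext (γ.symm_apply_apply z)
  exact ⟨RingEquiv.ofRingHom f f' (RingHom.ext e1) (RingHom.ext e2), hf⟩

end res

section cov
variable {κ R M : Type} [Field κ] [Field R] [Field M] [Algebra κ R] [Algebra R M] [Algebra κ M]
  [IsScalarTower κ R M] {x : R} {V : ValuationSubring κ} {O : ValuationSubring M}
  {F : Type} [Field F] {r : V →+* F} {k : Type} [Field k] [Algebra F k] {s : O →+* k} {xb : k}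

/-- the residue field of `R` is `F(xb)` -/
theorem R_res (hx : RatF κ x) (hG : Gauss V (algebraMap R M x) O) (hs : Res O s)
    (hsr : ∀ (c : κ) (hc : c ∈ V) (hc' : algebraMap κ M c ∈ O),
      s ⟨_, hc'⟩ = algebraMap F k (r ⟨c, hc⟩))
    (hxb : ∀ hx : algebraMap R M x ∈ O, s ⟨_, hx⟩ = xb) (a : R) (ha : algebraMap R M a ∈ O) :
    s ⟨_, ha⟩ ∈ IntermediateField.adjoin F {xb} := by
  let S : Subring M := ((IntermediateField.adjoin F {xb}).toSubfield.toSubring.comap s).map O.subtype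
  have hS : ∀ (z : M) (hz : z ∈ O), z ∈ S ↔ s ⟨z, hz⟩ ∈ IntermediateField.adjoin F {xb} := by
    intro z hz
    constructor
    · rintro ⟨w, hw, h⟩
      have : w = ⟨z, hz⟩ := Subtype.ext h
      rw [← this]; exact hw
    · intro h
      exact ⟨⟨z, hz⟩, h, rfl⟩
  have h1 := R_in hx hG S (fun c hc => (hS _ ((hG.1 c).2 hc)).2 (by
      rw [hsr c hc]; exact IntermediateField.algebraMap_mem _ _))
    ((hS _ (x_mem hG)).2 (by
      rw [hxb]; exact IntermediateField.mem_adjoin_simple_self F xb)) (fun z hz hzu => by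
        have h3 := (hS z hzu.2.1).1 hz
        rw [hS z⁻¹ hzu.2.2, s_inv hs hzu.2.1 hzu]
        exact inv_mem h3) a ha
  exact (hS _ ha).1 h1

/-- `xb` is transcendental -/
theorem xb_trans (hr : Res V r) (hG : Gauss V (algebraMap R M x) O) (hs : Res O s)
    (hsr : ∀ (c : κ) (hc : c ∈ V) (hc' : algebraMap κ M c ∈ O),
      s ⟨_, hc'⟩ = algebraMap F k (r ⟨c, hc⟩))
    (hxb : ∀ hx : algebraMap R M x ∈ O, s ⟨_, hx⟩ = xb) : Transcendental F xb := by
  rw [transcendental_iff]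
  intro p hp
  by_contra hp0
  -- a lift
  choose l hl using fun c : F => hr.surj c
  let l' : F → κ := fun c => (l c : κ)
  let P : κ[X] := ∑ i ∈ p.support, monomial i (l' (p.coeff i))
  have hcoeff : ∀ n, P.coeff n = if n ∈ p.support then l' (p.coeff n) else 0 := by
    intro n
    rw [finset_sum_coeff]
    simp only [coeff_monomial]
    rw [Finset.sum_ite_eq' p.support n]
  have h1 : ∀ n, P.coeff n ∈ V := by
    intro n
    rw [hcoeff]
    split_ifs
    · exact (l _).2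
    · exact zero_mem _
  have h2 : ∃ n, IsU V (P.coeff n) := by
    obtain ⟨n, hn⟩ := Polynomial.support_nonempty.2 hp0
    refine ⟨n, ?_⟩
    rw [hcoeff, if_pos hn]
    refine isU_of_s hr (l (p.coeff n)).2 ?_
    change r (l (p.coeff n)) ≠ 0
    rw [hl]
    exact mem_support_iff.1 hn
  have h3 := hG.2 P h1 h2
  have h4 : s ⟨_, h3.2.1⟩ = aeval xb p := by
    have e1 : (⟨_, h3.2.1⟩ : O) = ∑ i ∈ p.support,
        (⟨algebraMap κ M (l' (p.coeff i)), (hG.1 _).2 (l (p.coeff i)).2⟩ : O) *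
          (⟨algebraMap R M x, x_mem hG⟩ : O) ^ i := by
      apply Subtype.ext
      change aeval (algebraMap R M x) P = O.subtype _
      rw [map_sum, map_sum]
      refine Finset.sum_congr rfl fun i _ => ?_
      rw [aeval_monomial, map_mul, map_pow]
      rfl
    rw [e1, map_sum, aeval_eq_sum_range, Polynomial.sum_over_range' (p := p)
      (f := fun n a => a • xb ^ n) (by simp) _ (Nat.lt_succ_self _) |>.symm, Polynomial.sum_def]
    refine Finset.sum_congr rfl fun i _ => ?_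
    rw [map_mul, map_pow, hxb, hsr _ (l (p.coeff i)).2, Algebra.smul_def]
    congr 2
    exact hl _
  exact s_ne_zero hs h3.2.1 h3 (h4.trans hp)

end cov

end Pool.Agent.Y155.PS
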